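import Pool.Agent.Q267.MU.Soft

/-!
# Discs and charts
-/

set_option autoImplicit false

open Finset

namespace Pool.Agent.Q267.MU

open Polynomial (C X)

/-- The discs and the charts of a totally degenerate family: the centres `b_j` and the radii `r_j` of
discs, the set `D_j` of the centres in the `j`-th disc, and the equation in the coordinate `u` with
`x = b_j + S ^ (r_j) u`. -/
def Cfg {A : Type} [CommRing A] (n m : ℕ) (F : Polynomial (Polynomial A)) : Prop :=
  ∃ (b : Fin n → Polynomial A) (r : Fin n → ℕ) (D : Fin n → Finset (Fin n)) (d : Fin n → ℕ)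
    (κ κ' : Fin n → A),
    (∀ j, j ∈ D j) ∧ (∀ j, ∀ l ∈ D j, l ≠ j → r j < r l) ∧
    (∀ j, ∀ k ∈ D j, X ^ (r j + 1) ∣ b k - b j) ∧
    (∀ j k, k ∉ D j → ∃ (v : ℕ) (α : A) (ρ : Polynomial A), v < r j ∧ α ≠ 0 ∧
      b j - b k = X ^ v * (C α + X * ρ)) ∧
    (∀ j, κ j * κ' j = 1) ∧
    ∀ j, ∃ R : Polynomial (Polynomial A), (F.comp (X + C (b j))).comp (C (X ^ r j) * X) =
        C (X ^ d j) * (C (C (κ j)) * X ^ (m * (D j).card) + C X * R)

/-- The substitution `S ↦ δ S ^ m`. -/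
noncomputable def sg {A A' : Type} [CommRing A] [CommRing A'] (ι : A →+* A') (δ : A') (m : ℕ) :
    Polynomial A →+* Polynomial A' :=
  Polynomial.eval₂RingHom ((C : A' →+* Polynomial A').comp ι) (C δ * X ^ m)

section

variable {A A' : Type} [CommRing A] [CommRing A'] (ι : A →+* A') (δ : A') (m : ℕ)

lemma sg_C (a : A) : sg ι δ m (C a) = C (ι a) := by
  unfold sg
  rw [Polynomial.coe_eval₂RingHom, Polynomial.eval₂_C]
  rfl

lemma sg_X : sg ι δ m X = C δ * X ^ m := by
  unfold sg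
  rw [Polynomial.coe_eval₂RingHom, Polynomial.eval₂_X]

lemma sg_X_pow (v : ℕ) : sg ι δ m (X ^ v) = C (δ ^ v) * X ^ (m * v) := by
  rw [map_pow, sg_X, mul_pow, ← Polynomial.C_pow, ← pow_mul]

/-- The chart after the substitution. -/
lemma chart_trans {δ' : A'} (hδ : δ * δ' = 1) (hm1 : 1 ≤ m) (F R : Polynomial (Polynomial A))
    (b : Polynomial A) (r d q : ℕ) (κ : A)
    (h : (F.comp (X + C b)).comp (C (X ^ r) * X) =
        C (X ^ d) * (C (C κ) * X ^ q + C X * R)) :
    ∃ R' : Polynomial (Polynomial A'), ((F.map (sg ι δ m)).comp (X + C (sg ι δ m b))).comp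
      (C (X ^ (m * r)) * X) =
        C (X ^ (m * d)) * (C (C (ι κ * δ ^ d * δ' ^ (r * q))) * X ^ q + C X * R') := by
  set σ := sg ι δ m with hσ
  have h1 := congrArg (fun P => (P.map σ).comp (C (C (δ' ^ r)) * X)) h
  have hδr : δ ^ r * δ' ^ r = 1 := by rw [← mul_pow, hδ, one_pow]
  have h2 : ((((F.comp (X + C b)).comp (C (X ^ r) * X)).map σ).comp (C (C (δ' ^ r)) * X)) =
      ((F.map σ).comp (X + C (σ b))).comp (C (X ^ (m * r)) * X) := by
    rw [Polynomial.map_comp, Polynomial.map_comp, Polynomial.map_add, Polynomial.map_X,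
      Polynomial.map_C, Polynomial.map_mul, Polynomial.map_C, Polynomial.map_X,
      Polynomial.comp_assoc (ψ := C (σ (X ^ r)) * X)]
    congr 1
    rw [Polynomial.mul_comp, Polynomial.C_comp, Polynomial.X_comp, ← mul_assoc, ← Polynomial.C_mul,
      hσ, sg_X_pow]
    congr 2
    calc C (δ ^ r) * X ^ (m * r) * C (δ' ^ r) = C (δ ^ r * δ' ^ r) * X ^ (m * r) := by
          rw [Polynomial.C_mul]
          ring
      _ = _ := by rw [hδr, Polynomial.C_1, one_mul]
  obtain ⟨m', rfl⟩ : ∃ m', m = m' + 1 := ⟨m - 1, by omega⟩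
  refine ⟨C (C (δ ^ (d + 1)) * X ^ m') * (R.map σ).comp (C (C (δ' ^ r)) * X), ?_⟩
  rw [← h2, h1, Polynomial.map_mul, Polynomial.map_C, Polynomial.map_add, Polynomial.map_mul,
    Polynomial.map_C, Polynomial.map_pow, Polynomial.map_X, Polynomial.map_mul, Polynomial.map_C,
    Polynomial.mul_comp, Polynomial.C_comp, Polynomial.add_comp, Polynomial.mul_comp,
    Polynomial.C_comp, Polynomial.X_pow_comp, Polynomial.mul_comp, Polynomial.C_comp]
  rw [hσ, sg_X_pow, sg_C, sg_X, mul_pow, pow_mul, pow_succ δ d, pow_succ (X : Polynomial A') m']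
  simp only [Polynomial.C_mul, Polynomial.C_pow]
  ring

variable {n : ℕ} {F : Polynomial (Polynomial A)}

/-- The discs and the charts after the substitution. -/
lemma Cfg.trans [IsDomain A'] (h : Cfg n m F) (hι : Function.Injective ι) {δ' : A'}
    (hδ : δ * δ' = 1) (hm1 : 1 ≤ m) :
    ∃ (b : Fin n → Polynomial A') (r : Fin n → ℕ) (D : Fin n → Finset (Fin n)) (c : Fin n → ℕ)
      (κ κ' : Fin n → A'),
      (∀ j, j ∈ D j) ∧ (∀ j, ∀ l ∈ D j, l ≠ j → r j < r l) ∧
      (∀ j, ∀ k ∈ D j, X ^ (r j + 1) ∣ b k - b j) ∧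
      (∀ j k, k ∉ D j → ∃ (v : ℕ) (α : A') (ρ : Polynomial A'), v < r j ∧ α ≠ 0 ∧
        b j - b k = X ^ v * (C α + X * ρ)) ∧
      (∀ j, κ j * κ' j = 1) ∧
      ∀ j, ∃ R : Polynomial (Polynomial A'),
        ((F.map (sg ι δ m)).comp (X + C (b j))).comp (C (X ^ r j) * X) =
          C (X ^ (m * c j)) * (C (C (κ j)) * X ^ (m * (D j).card) + C X * R) := by
  obtain ⟨b, r, D, d, κ, κ', h1, h2, h3, h4, h5, h6⟩ := h
  have hδ0 : δ ≠ 0 := by
    rintro rfl
    rw [zero_mul] at hδ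
    exact zero_ne_one hδ
  refine ⟨fun j => sg ι δ m (b j), fun j => m * r j, D, d,
    fun j => ι (κ j) * δ ^ d j * δ' ^ (r j * (m * (D j).card)),
    fun j => ι (κ' j) * δ' ^ d j * δ ^ (r j * (m * (D j).card)), h1, fun j l hl hne => ?_,
    fun j k hk => ?_, fun j k hk => ?_, fun j => ?_, fun j => ?_⟩
  · exact Nat.mul_lt_mul_of_pos_left (h2 j l hl hne) hm1
  · obtain ⟨q, hq⟩ := h3 j k hk
    rw [← map_sub, hq, map_mul, sg_X_pow]
    refine Dvd.dvd.mul_right (Dvd.dvd.mul_left (pow_dvd_pow _ ?_) _) _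
    change m * r j + 1 ≤ m * (r j + 1)
    rw [mul_add]
    omega
  · obtain ⟨v, α, ρ, hv, hα, hb⟩ := h4 j k hk
    refine ⟨m * v, ι α * δ ^ v, C (δ ^ (v + 1)) * X ^ (m - 1) * sg ι δ m ρ,
      Nat.mul_lt_mul_of_pos_left hv hm1, ?_, ?_⟩
    · refine mul_ne_zero ?_ (pow_ne_zero _ hδ0)
      rw [Ne, map_eq_zero_iff ι hι]
      exact hα
    · rw [← map_sub, hb, map_mul, map_add, map_mul, sg_X_pow, sg_C, sg_X]
      obtain ⟨m', rfl⟩ : ∃ m', m = m' + 1 := ⟨m - 1, by omega⟩
      rw [Nat.add_sub_cancel, pow_succ (X : Polynomial A') m', pow_succ δ v]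
      simp only [Polynomial.C_mul, Polynomial.C_pow]
      ring
  · have h7 : ι (κ j) * ι (κ' j) = 1 := by rw [← map_mul, h5, map_one]
    calc ι (κ j) * δ ^ d j * δ' ^ (r j * (m * (D j).card)) *
          (ι (κ' j) * δ' ^ d j * δ ^ (r j * (m * (D j).card))) =
          (ι (κ j) * ι (κ' j)) * (δ * δ') ^ d j * (δ * δ') ^ (r j * (m * (D j).card)) := by
          rw [mul_pow, mul_pow]
          ring
      _ = 1 := by rw [h7, hδ, one_pow, one_pow, one_mul, one_mul]
  · obtain ⟨R, hR⟩ := h6 j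
    exact chart_trans ι δ m hδ hm1 F R (b j) (r j) (d j) (m * (D j).card) (κ j) hR

end

/-- The pullback by `t = S ^ N`, `x ↦ x / S ^ M`, multiplied by `S ^ (M B)`. -/
noncomputable def pull {A : Type} [CommRing A] (B N M : ℕ) (f : Polynomial (Polynomial A)) :
    Polynomial (Polynomial A) :=
  ∑ i ∈ range (B + 1), C (X ^ (M * (B - i)) * (f.coeff i).comp (X ^ N)) * X ^ i

section

variable {A : Type} [CommRing A]

lemma coeff_pull (B N M : ℕ) (f : Polynomial (Polynomial A)) (i : ℕ) :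
    (pull B N M f).coeff i =
      if i ≤ B then X ^ (M * (B - i)) * (f.coeff i).comp (X ^ N) else 0 := by
  unfold pull
  rw [Polynomial.finsetSum_coeff]
  simp only [Polynomial.coeff_C_mul, Polynomial.coeff_X_pow, mul_ite, mul_one, mul_zero]
  rw [sum_ite_eq]
  simp only [mem_range, Nat.lt_succ_iff]

lemma natDegree_pull (B N M : ℕ) (f : Polynomial (Polynomial A)) :
    (pull B N M f).natDegree ≤ B := by
  rw [Polynomial.natDegree_le_iff_coeff_eq_zero]
  intro i hi
  rw [coeff_pull, if_neg (by omega)]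

lemma pull_map {A' : Type} [CommRing A'] (φ : A →+* A') (B N M : ℕ)
    (f : Polynomial (Polynomial A)) :
    (pull B N M f).map (Polynomial.mapRingHom φ) =
      pull B N M (f.map (Polynomial.mapRingHom φ)) := by
  ext1 i
  rw [Polynomial.coeff_map, coeff_pull, coeff_pull, Polynomial.coeff_map, Polynomial.coe_mapRingHom]
  split_ifs
  · rw [Polynomial.map_mul, Polynomial.map_pow, Polynomial.map_X, Polynomial.map_comp,
      Polynomial.map_pow, Polynomial.map_X]
  · rw [Polynomial.map_zero]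

/-- The scaling of the members. -/
lemma pull_scale {k : Type} [CommRing k] (φ : A →+* k) (B N M : ℕ)
    (f : Polynomial (Polynomial A)) (hf : f.natDegree ≤ B) (w : k) :
    ((pull B N M f).map (Polynomial.eval₂RingHom φ w)).comp (C (w ^ M) * X) =
      C ((w ^ M) ^ B) * f.map (Polynomial.eval₂RingHom φ (w ^ N)) := by
  ext1 i
  rw [Polynomial.comp_C_mul_X_coeff, Polynomial.coeff_C_mul, Polynomial.coeff_map,
    Polynomial.coeff_map, coeff_pull]
  split_ifs with hi
  · rw [map_mul, map_pow]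
    simp only [Polynomial.coe_eval₂RingHom, Polynomial.eval₂_X]
    rw [Polynomial.eval₂_comp, Polynomial.eval₂_X_pow]
    have h1 : w ^ (M * (B - i)) * (w ^ M) ^ i = (w ^ M) ^ B := by
      rw [← pow_mul, ← pow_mul, ← pow_add]
      congr 1
      rw [← mul_add]
      congr 1
      omega
    rw [← h1]
    ring
  · rw [map_zero, zero_mul, Polynomial.coeff_eq_zero_of_natDegree_lt (by omega), map_zero,
      mul_zero]

end

end Pool.Agent.Q267.MU
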