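import Pool.Agent.Q267.MU.Cfg
import Pool.Agent.Q267.TD.Dbl
import Pool.Agent.Q267.AM.Conc

/-!
# All values of the parameter, totally degenerate families
-/

set_option autoImplicit false

open Finset

namespace Pool.Agent.Q267.MU

open Pool.Agent.Q267.ST Pool.Agent.Q267.AP
open Pool.Agent.Q267.AM (S_RootG rootG)

variable {A : Type} [CommRing A] [IsDomain A] [CharZero A]

/-- **The soft Stepanov theorem for totally degenerate families, all values of the parameter.** -/
theorem dblU (hSoft : S_Soft) (hLip : S_Lip) (hadd : S_DFadd) (hmul : S_DFmul)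
    (hpoly : S_DFpoly) (hof : S_DFofODE) (hto : S_DFtoODE) (hroot : S_RootG) (hF : S_FrobG)
    (hC : S_CxMul) {n m N M : ℕ} (hm1 : 1 ≤ m) (hN : 1 ≤ N) {μ : A} (hμ : (m : A) ^ 2 * μ = 1)
    (f : Polynomial (Polynomial A)) (hf : f.natDegree ≤ m * (n + 1))
    (hcfg : Cfg n m (pull (m * (n + 1)) N M f)) (ε : ℝ) (hε : 0 < ε) :
    ∃ (p₀ : ℕ) (a : A), a ≠ 0 ∧ ∀ (p : ℕ) (k : Type) [Field k] [CharP k p] (φ : A →+* k),
      p.Prime → p₀ ≤ p → φ a ≠ 0 → ∀ E : ℕ, E * m + 1 = p →
      ∀ Z : Finset k, (∀ t ∈ Z, t ^ p = t ∧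
        (hu n E p (f.map (Polynomial.mapRingHom φ))).det.eval t = 0) →
      (Z.card : ℝ) ≤ ε * p := by
  classical
  set A' := LaurentPolynomial A with hA'
  have hinj : Function.Injective (LaurentPolynomial.C : A →+* A') := by
    intro x y hxy
    have h1 := congrArg (fun q : A' => q.coeff 0) hxy
    simpa using h1
  have hdom : IsDomain A' := inferInstance
  have hchar : CharZero A' := by
    refine ⟨fun x y hxy => ?_⟩
    apply Nat.cast_injective (R := A)
    apply hinj
    rw [map_natCast, map_natCast]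
    exact hxy
  have hT : (LaurentPolynomial.T 1 : A') * LaurentPolynomial.T (-1) = 1 := by
    rw [← LaurentPolynomial.T_add]
    exact LaurentPolynomial.T_zero
  set B := m * (n + 1) with hB
  set F := pull B N M f with hFd
  set σ := sg (LaurentPolynomial.C : A →+* A') (LaurentPolynomial.T 1) m with hσ
  obtain ⟨b, r, D, c, κ, κ', hc1, hc2, hc3, hc4, hc5, hc6⟩ :=
    hcfg.trans (LaurentPolynomial.C : A →+* A') (LaurentPolynomial.T 1) m hinj hT hm1
  rw [← hσ] at hc6
  set F' := F.map σ with hF'
  obtain ⟨p₁, a', ha', hS⟩ := softU (A := A') hSoft hLip hadd hmul hpoly hof hto hroot hF hC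
    hm1 (μ := LaurentPolynomial.C μ)
    (by rw [← map_natCast (LaurentPolynomial.C : A →+* A'), ← map_pow, ← map_mul, hμ, map_one])
    F' (Polynomial.natDegree_map_le.trans (natDegree_pull B N M f)) b r D hc1 hc2 hc3 hc4 c κ κ'
    hc5 hc6 (ε / 8) (by positivity) (F'.support.sup fun i => (F'.coeff i).natDegree)
    (fun i => by
      by_cases hi : i ∈ F'.support
      · exact le_sup (f := fun i => (F'.coeff i).natDegree) hi
      · rw [Polynomial.notMem_support_iff.mp hi, Polynomial.natDegree_zero]
        exact Nat.zero_le _)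
  obtain ⟨n', q, hq⟩ := LaurentPolynomial.exists_T_pow a'
  have hq0 : q ≠ 0 := by
    rintro rfl
    rw [map_zero] at hq
    have hT : (LaurentPolynomial.T (n' : ℤ) : A') ≠ 0 :=
      (LaurentPolynomial.isUnit_T (R := A) (n' : ℤ)).ne_zero
    exact mul_ne_zero ha' hT hq.symm
  refine ⟨max (max p₁ 2) (max ⌈(2 * (2 * ((q.natDegree : ℝ) + 1) + 1)) / ε⌉₊ ⌈8 / ε⌉₊),
    q.leadingCoeff, Polynomial.leadingCoeff_ne_zero.mpr hq0, ?_⟩
  intro p k _ _ φ hpp hp0 hφ E he Z hZ
  have hp1 : p₁ ≤ p := (le_max_left _ _).trans ((le_max_left _ _).trans hp0)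
  have hp3 : (2 * (2 * ((q.natDegree : ℝ) + 1) + 1)) / ε ≤ p :=
    (Nat.le_ceil _).trans (by exact_mod_cast (le_max_left _ _).trans ((le_max_right _ _).trans hp0))
  have hp4 : 8 / ε ≤ (p : ℝ) :=
    (Nat.le_ceil _).trans (by
      exact_mod_cast (le_max_right _ _).trans ((le_max_right _ _).trans hp0))
  have hp2 : (2 : ℝ) ≤ p := by exact_mod_cast hpp.two_le
  -- the algebraic closure
  set kb := AlgebraicClosure k with hkb
  have hchb : CharP kb p := charP_of_injective_algebraMap (algebraMap k kb).injective p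
  set φb : A →+* kb := (algebraMap k kb).comp φ with hφb
  have hqk : q.map φb ≠ 0 := by
    intro h0
    have h1 := congrArg (fun q' => Polynomial.coeff q' q.natDegree) h0
    simp only [Polynomial.coeff_map, Polynomial.coeff_zero] at h1
    rw [hφb, RingHom.comp_apply, map_eq_zero] at h1
    exact hφ h1
  set Bd : Finset k := insert 0 (((q.map φb).roots.toFinset.image fun z => z ^ N).preimage
    (algebraMap k kb) (algebraMap k kb).injective.injOn) with hBd
  have hBc : Bd.card ≤ q.natDegree + 1 := by
    refine (card_insert_le _ _).trans (Nat.succ_le_succ ?_)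
    have h1 : ((((q.map φb).roots.toFinset.image fun z => z ^ N).preimage
        (algebraMap k kb) (algebraMap k kb).injective.injOn)).card ≤
        ((q.map φb).roots.toFinset.image fun z => z ^ N).card := by
      rw [← card_image_of_injective _ (algebraMap k kb).injective]
      refine card_le_card fun x hx => ?_
      obtain ⟨y, hy, rfl⟩ := mem_image.mp hx
      exact mem_preimage.mp hy
    exact h1.trans (card_image_le.trans ((Multiset.toFinset_card_le _).trans
      ((Polynomial.card_roots' _).trans Polynomial.natDegree_map_le)))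
  have key := dbl hpp (m * N) (q.natDegree + 1) (ε / 4) (by positivity)
    Bd Z hBc (fun t ht => (hZ t ht).1)
    (fun g₀ hg₀ hgB T hT => by
      rw [hBd, mem_insert, not_or] at hgB
      obtain ⟨hg0, hgr⟩ := hgB
      obtain ⟨δ₀, hδ₀⟩ := IsAlgClosed.exists_pow_nat_eq (algebraMap k kb g₀) (n := N) (by omega)
      have hδne : δ₀ ≠ 0 := by
        rintro rfl
        rw [zero_pow (by omega)] at hδ₀
        exact hg0 ((map_eq_zero _).mp hδ₀.symm)
      set φ' : A' →+* kb := LaurentPolynomial.eval₂ φb (Units.mk0 δ₀ hδne) with hφ'd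
      have hφC : φ'.comp LaurentPolynomial.C = φb := by
        ext x
        rw [RingHom.comp_apply, hφ'd, LaurentPolynomial.eval₂_C]
      have hφ'T : φ' (LaurentPolynomial.T 1) = δ₀ := by
        rw [hφ'd, LaurentPolynomial.eval₂_T]
        simp
      have hφ' : φ' a' ≠ 0 := by
        intro h0
        have h1 := congrArg φ' hq
        rw [map_mul, h0, zero_mul, hφ'd, LaurentPolynomial.eval₂_toLaurent] at h1
        apply hgr
        rw [mem_preimage, mem_image]
        refine ⟨δ₀, ?_, hδ₀⟩
        rw [Multiset.mem_toFinset, Polynomial.mem_roots hqk, Polynomial.IsRoot.def,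
          Polynomial.eval_map]
        exact h1
      have h1 := hS p kb φ' hpp hp1 hφ' E he ((T.erase 0).image (algebraMap k kb)) (by
        intro s' hs'
        obtain ⟨s, hs, rfl⟩ := mem_image.mp hs'
        obtain ⟨hs0, hsT⟩ := mem_erase.mp hs
        obtain ⟨hs1, hs2⟩ := hT s hsT
        have hsb : algebraMap k kb s ≠ 0 := by
          rw [Ne, map_eq_zero]
          exact hs0
        refine ⟨by rw [← map_pow, hs1], hsb, ?_⟩
        set w := δ₀ * (algebraMap k kb s) ^ m with hw
        have hw0 : w ≠ 0 := mul_ne_zero hδne (pow_ne_zero _ hsb)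
        have hwN : w ^ N = algebraMap k kb (g₀ * s ^ (m * N)) := by
          rw [hw, mul_pow, hδ₀, ← pow_mul, map_mul, map_pow]
        -- the member over the algebraic closure
        have hτ : ((Polynomial.evalRingHom (algebraMap k kb s)).comp
            (Polynomial.mapRingHom φ')).comp σ = Polynomial.eval₂RingHom φb w := by
          apply Polynomial.ringHom_ext
          · intro a
            rw [RingHom.comp_apply, hσ, sg_C, RingHom.comp_apply, Polynomial.coe_mapRingHom,
              Polynomial.map_C, Polynomial.coe_evalRingHom, Polynomial.eval_C,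
              Polynomial.coe_eval₂RingHom, Polynomial.eval₂_C, ← hφC, RingHom.comp_apply]
          · rw [RingHom.comp_apply, hσ, sg_X, RingHom.comp_apply, Polynomial.coe_mapRingHom,
              Polynomial.map_mul, Polynomial.map_C, Polynomial.map_pow, Polynomial.map_X,
              Polynomial.coe_evalRingHom, Polynomial.eval_mul, Polynomial.eval_C,
              Polynomial.eval_pow, Polynomial.eval_X, hφ'T, Polynomial.coe_eval₂RingHom,
              Polynomial.eval₂_X]
        have h2 : (hu n E p (F'.map (Polynomial.mapRingHom φ'))).det.eval (algebraMap k kb s) =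
            (hu n E p (F.map (Polynomial.eval₂RingHom φb w))).det := by
          rw [← Polynomial.coe_evalRingHom, ← det_hu_map, hF', Polynomial.map_map,
            Polynomial.map_map, ← hτ]
        have hτ' : Polynomial.eval₂RingHom φb (w ^ N) = (algebraMap k kb).comp
            ((Polynomial.evalRingHom (g₀ * s ^ (m * N))).comp (Polynomial.mapRingHom φ)) := by
          apply Polynomial.ringHom_ext
          · intro a
            simp only [RingHom.comp_apply, Polynomial.coe_eval₂RingHom, Polynomial.eval₂_C,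
              Polynomial.coe_mapRingHom, Polynomial.map_C, Polynomial.coe_evalRingHom,
              Polynomial.eval_C, hφb]
          · simp only [RingHom.comp_apply, Polynomial.coe_eval₂RingHom, Polynomial.eval₂_X,
              Polynomial.coe_mapRingHom, Polynomial.map_X, Polynomial.coe_evalRingHom,
              Polynomial.eval_X, hwN]
        have h3 : (hu n E p (f.map (Polynomial.eval₂RingHom φb (w ^ N)))).det = 0 := by
          rw [hτ', ← Polynomial.map_map, det_hu_map, ← Polynomial.map_map, det_hu_map,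
            Polynomial.coe_evalRingHom, (hZ _ hs2).2, map_zero]
        have h4 := det_scale n E p B (w ^ M) _ _ (pull_scale φb B N M f hf w)
        rw [h3, mul_zero] at h4
        rw [h2]
        exact (mul_eq_zero.mp h4).resolve_left (pow_ne_zero _ (pow_ne_zero _ hw0)))
      rw [card_image_of_injective _ (algebraMap k kb).injective] at h1
      have h2 : (T.card : ℝ) ≤ (T.erase 0).card + 1 := by
        have := pred_card_le_card_erase (s := T) (a := (0 : k))
        have h3 : T.card ≤ (T.erase 0).card + 1 := by omega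
        exact_mod_cast h3
      have h3 : 8 ≤ p * ε := by rwa [div_le_iff₀ hε] at hp4
      linarith)
  have h4 : (2 * (2 * ((q.natDegree : ℝ) + 1) + 1)) ≤ p * ε := by
    rwa [div_le_iff₀ hε] at hp3
  have hpos : (0 : ℝ) < (p : ℝ) - 1 := by linarith
  have h5 : ε / 4 * p * p + ((q.natDegree + 1 : ℕ) : ℝ) * p ≤ (ε * p - 1) * (p - 1) := by
    have hd : (0 : ℝ) ≤ (q.natDegree : ℝ) + 1 := by positivity
    push_cast
    nlinarith [mul_le_mul_of_nonneg_right h4 (by linarith : (0 : ℝ) ≤ (p : ℝ)),
      mul_nonneg hε.le (mul_nonneg (by linarith : (0 : ℝ) ≤ (p : ℝ))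
        (by linarith : (0 : ℝ) ≤ (p : ℝ) - 2)), mul_nonneg hd (by linarith : (0 : ℝ) ≤ (p : ℝ) - 2)]
  have h6 := le_of_mul_le_mul_right (key.trans h5) hpos
  linarith

/-- The theorem without the hypotheses which are proved elsewhere. -/
theorem concU {n m N M : ℕ} (hm1 : 1 ≤ m) (hN : 1 ≤ N) {μ : A} (hμ : (m : A) ^ 2 * μ = 1)
    (f : Polynomial (Polynomial A)) (hf : f.natDegree ≤ m * (n + 1))
    (hcfg : Cfg n m (pull (m * (n + 1)) N M f)) (ε : ℝ) (hε : 0 < ε) :
    ∃ (p₀ : ℕ) (a : A), a ≠ 0 ∧ ∀ (p : ℕ) (k : Type) [Field k] [CharP k p] (φ : A →+* k),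
      p.Prime → p₀ ≤ p → φ a ≠ 0 → ∀ E : ℕ, E * m + 1 = p →
      ∀ Z : Finset k, (∀ t ∈ Z, t ^ p = t ∧
        (hu n E p (f.map (Polynomial.mapRingHom φ))).det.eval t = 0) →
      (Z.card : ℝ) ≤ ε * p :=
  dblU soft_stepanov lip Pool.Agent.Q121.ST.dfAdd
    Pool.Agent.Q121.ST.dfMul Pool.Agent.Q121.ST.dfPoly Pool.Agent.Q121.ST.dfOfODE
    Pool.Agent.Q121.ST.dfToODE rootG frobG Pool.Agent.Q299.ST.cxMul hm1 hN hμ f hf hcfg ε hε

end Pool.Agent.Q267.MU
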