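import Pool.Agent.Q267.MU.Trans
import Pool.Agent.Q267.TD.Conc

/-!
# Discs and charts over a field and over a finitely generated ring
-/

set_option autoImplicit false

open Finset

namespace Pool.Agent.Q267.MU

open Polynomial (C X)

/-- The `l`-th centre is inside of the `j`-th circle. -/
def InD {L : Type} [Field L] {n : ℕ} (b : Fin n → Polynomial L) (r : Fin n → ℕ) (j l : Fin n) :
    Prop :=
  X ^ (r j + 1) ∣ b l - b j

/-- The polynomial `P` in `x` over the polynomials in `S` is totally degenerate at `S = 0`. -/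
def Deg {L : Type} [Field L] (m n : ℕ) (P : Polynomial (Polynomial L)) : Prop :=
  ∃ (b : Fin n → Polynomial L) (r : Fin n → ℕ),
    (∀ j l, InD b r j l ∨ ¬ X ^ r j ∣ b l - b j) ∧
    (∀ j l, j ≠ l → InD b r j l → ¬ InD b r l j) ∧
    ∀ j, ∃ (d : ℕ) (κ : L), κ ≠ 0 ∧ C (X ^ (d + 1)) ∣
      P.comp (C (b j) + C (X ^ r j) * X) -
        C (C κ * X ^ d) * X ^ (m * Nat.card {l : Fin n // InD b r j l})

lemma dvd_map_iff {A L : Type} [CommRing A] [CommRing L] (ι : A →+* L)
    (hι : Function.Injective ι) (a : ℕ) (P : Polynomial A) :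
    X ^ a ∣ P.map ι ↔ X ^ a ∣ P := by
  rw [Polynomial.X_pow_dvd_iff, Polynomial.X_pow_dvd_iff]
  refine forall_congr' fun d => forall_congr' fun _ => ?_
  rw [Polynomial.coeff_map, map_eq_zero_iff ι hι]

lemma C_dvd_map_iff {A L : Type} [CommRing A] [CommRing L] (ι : A →+* L)
    (hι : Function.Injective ι) (a : ℕ) (P : Polynomial (Polynomial A)) :
    C (X ^ a) ∣ P.map (Polynomial.mapRingHom ι) ↔ C (X ^ a) ∣ P := by
  rw [Polynomial.C_dvd_iff_dvd_coeff, Polynomial.C_dvd_iff_dvd_coeff]
  refine forall_congr' fun i => ?_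
  rw [Polynomial.coeff_map, Polynomial.coe_mapRingHom, dvd_map_iff ι hι]

lemma comp_comp {A : Type} [CommRing A] (F : Polynomial (Polynomial A)) (b : Polynomial A)
    (r : ℕ) : (F.comp (X + C b)).comp (C (X ^ r) * X) = F.comp (C b + C (X ^ r) * X) := by
  rw [Polynomial.comp_assoc]
  congr 1
  rw [Polynomial.add_comp, Polynomial.X_comp, Polynomial.C_comp, add_comm]

/-- Descent. -/
lemma cfg_descent {A L : Type} [CommRing A] [IsDomain A] [Field L] (ι : A →+* L)
    (hι : Function.Injective ι) {n m : ℕ} (F : Polynomial (Polynomial A))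
    (b' : Fin n → Polynomial A) (r : Fin n → ℕ) (κ : Fin n → L) (κ' : Fin n → A)
    (hκ : ∀ j, κ j * ι (κ' j) = 1) (d : Fin n → ℕ) (b : Fin n → Polynomial L)
    (hb : ∀ j, (b' j).map ι = b j)
    (h1 : ∀ j l, InD b r j l ∨ ¬ X ^ r j ∣ b l - b j)
    (h2 : ∀ j l, j ≠ l → InD b r j l → ¬ InD b r l j)
    (h3 : ∀ j, C (X ^ (d j + 1)) ∣
      (F.map (Polynomial.mapRingHom ι)).comp (C (b j) + C (X ^ r j) * X) -
        C (C (κ j) * X ^ d j) * X ^ (m * Nat.card {l : Fin n // InD b r j l})) :
    Cfg n m F := by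
  classical
  have hin : ∀ j l, InD b r j l ↔ X ^ (r j + 1) ∣ b' l - b' j := by
    intro j l
    unfold InD
    rw [← hb, ← hb, ← Polynomial.map_sub, dvd_map_iff ι hι]
  have hnot : ∀ j l, X ^ r j ∣ b l - b j ↔ X ^ r j ∣ b' l - b' j := by
    intro j l
    rw [← hb, ← hb, ← Polynomial.map_sub, dvd_map_iff ι hι]
  simp only [hin] at h1 h2
  have hcard : ∀ j, Nat.card {l : Fin n // InD b r j l} =
      (univ.filter fun l => X ^ (r j + 1) ∣ b' l - b' j).card := by
    intro j
    rw [Nat.card_eq_fintype_card, Fintype.card_subtype]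
    congr 1
    ext l
    simp only [mem_filter, mem_univ, true_and]
    exact hin j l
  simp only [hcard] at h3
  set D : Fin n → Finset (Fin n) := fun j => univ.filter fun l => X ^ (r j + 1) ∣ b' l - b' j
    with hD
  have hmem : ∀ j l, l ∈ D j ↔ X ^ (r j + 1) ∣ b' l - b' j := fun j l => by
    rw [hD]
    simp only [mem_filter, mem_univ, true_and]
  set P : Fin n → Polynomial (Polynomial A) := fun j => F.comp (C (b' j) + C (X ^ r j) * X) with hP
  have hPmap : ∀ j, (P j).map (Polynomial.mapRingHom ι) =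
      (F.map (Polynomial.mapRingHom ι)).comp (C (b j) + C (X ^ r j) * X) := by
    intro j
    rw [hP]
    simp only
    rw [Polynomial.map_comp, Polynomial.map_add, Polynomial.map_C, Polynomial.map_mul,
      Polynomial.map_C, Polynomial.map_X, Polynomial.coe_mapRingHom, hb, Polynomial.map_pow,
      Polynomial.map_X]
  have hlead : ∀ j, ι (((P j).coeff (m * (D j).card)).coeff (d j)) = κ j := by
    intro j
    have h4 := (Polynomial.C_dvd_iff_dvd_coeff _ _).mp (h3 j) (m * (D j).card)
    rw [Polynomial.X_pow_dvd_iff] at h4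
    have h5 := h4 (d j) (Nat.lt_succ_self _)
    rw [← hPmap, Polynomial.coeff_sub, Polynomial.coeff_map, Polynomial.coeff_C_mul,
      Polynomial.coeff_X_pow, if_pos rfl, mul_one, Polynomial.coeff_sub, Polynomial.coe_mapRingHom,
      Polynomial.coeff_map, Polynomial.coeff_C_mul, Polynomial.coeff_X_pow, if_pos rfl, mul_one,
      sub_eq_zero] at h5
    exact h5
  refine ⟨b', r, D, d, fun j => ((P j).coeff (m * (D j).card)).coeff (d j), κ', fun j => ?_,
    fun j l hl hne => ?_, fun j k hk => (hmem j k).mp hk, fun j k hk => ?_, fun j => ?_,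
    fun j => ?_⟩
  · rw [hmem, sub_self]
    exact dvd_zero _
  · have h4 := h2 j l (Ne.symm hne) ((hmem j l).mp hl)
    by_contra hno
    push Not at hno
    apply h4
    have h5 := (pow_dvd_pow (X : Polynomial A) (Nat.succ_le_succ hno)).trans ((hmem j l).mp hl)
    rw [← neg_sub]
    exact (dvd_neg).mpr h5
  · have h4 : ¬ X ^ r j ∣ b' k - b' j := by
      rcases h1 j k with h | h
      · exact absurd ((hmem j k).mpr h) hk
      · rwa [hnot] at h
    obtain ⟨ρ, hρ⟩ := Pool.Agent.Q267.TD.exists_trail (b' j - b' k)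
    refine ⟨_, _, ρ, ?_, ?_, hρ⟩
    · by_contra hno
      push Not at hno
      apply h4
      rw [← neg_sub, dvd_neg, hρ]
      exact Dvd.dvd.mul_right (pow_dvd_pow _ hno) _
    · rw [Ne, Polynomial.trailingCoeff_eq_zero]
      intro h0
      apply h4
      rw [← neg_sub, h0, neg_zero]
      exact dvd_zero _
  · apply hι
    rw [map_mul, hlead, hκ, map_one]
  · obtain ⟨R, hR⟩ : C (X ^ (d j + 1)) ∣ P j -
        C (C (((P j).coeff (m * (D j).card)).coeff (d j)) * X ^ d j) * X ^ (m * (D j).card) := by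
      rw [← C_dvd_map_iff ι hι, Polynomial.map_sub, hPmap, Polynomial.map_mul, Polynomial.map_C,
        Polynomial.map_pow, Polynomial.map_X, Polynomial.coe_mapRingHom, Polynomial.map_mul,
        Polynomial.map_C, Polynomial.map_pow, Polynomial.map_X, hlead]
      exact h3 j
    refine ⟨R, ?_⟩
    rw [comp_comp]
    have h4 : F.comp (C (b' j) + C (X ^ r j) * X) = P j := rfl
    rw [h4, sub_eq_iff_eq_add.mp hR, pow_succ]
    simp only [Polynomial.C_mul, Polynomial.C_pow]
    ring

end Pool.Agent.Q267.MU
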