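import Pool.Agent.Q267.MU.Law
import Pool.Agent.Q267.TD.Norm

/-!
# Polynomials in one variable as power series over the Laurent polynomials
-/

set_option autoImplicit false

open Finset

namespace Pool.Agent.Q267.MU

open Pool.Agent.Q267.ST Pool.Agent.Q267.AP
open Pool.Agent.Q174.AP (coeff_scal)
open Pool.Agent.Q267.DC (hm)
open Pool.Agent.Q102.AP (toP xP coe_xP coe_toP)

section

variable {R : Type} [CommRing R]

/-- Polynomials in one variable. -/
noncomputable def emb : Polynomial R →+* MvPolynomial (Fin 1) R :=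
  Polynomial.eval₂RingHom MvPolynomial.C (MvPolynomial.X 0)

lemma emb_C (c : R) : emb (Polynomial.C c) = MvPolynomial.C c := by
  unfold emb
  rw [Polynomial.coe_eval₂RingHom, Polynomial.eval₂_C]

lemma emb_X : emb (Polynomial.X : Polynomial R) = MvPolynomial.X 0 := by
  unfold emb
  rw [Polynomial.coe_eval₂RingHom, Polynomial.eval₂_X]

lemma emb_monomial (N : ℕ) (c : R) :
    emb (Polynomial.monomial N c) = MvPolynomial.monomial (Finsupp.single 0 N) c := by
  rw [← Polynomial.C_mul_X_pow_eq_monomial, map_mul, map_pow, emb_C, emb_X,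
    MvPolynomial.X_pow_eq_monomial, MvPolynomial.C_mul_monomial, mul_one]

lemma fin1_eq (v : Fin 1 →₀ ℕ) : v = Finsupp.single 0 (v 0) := by
  refine DFunLike.ext _ _ fun i => ?_
  rw [Subsingleton.elim i 0, Finsupp.single_eq_same]

lemma coeff_emb (f : Polynomial R) (v : Fin 1 →₀ ℕ) :
    MvPolynomial.coeff v (emb f) = f.coeff (v 0) := by
  classical
  conv_lhs => rw [f.as_sum_support]
  rw [map_sum, MvPolynomial.coeff_sum]
  have h1 : ∀ N ∈ f.support, MvPolynomial.coeff v (emb (Polynomial.monomial N (f.coeff N))) =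
      if N = v 0 then f.coeff (v 0) else 0 := by
    intro N _
    rw [emb_monomial, MvPolynomial.coeff_monomial]
    by_cases h : N = v 0
    · rw [if_pos h, if_pos (by rw [h]; exact (fin1_eq v).symm), h]
    · rw [if_neg h, if_neg]
      intro h'
      apply h
      rw [← h', Finsupp.single_eq_same]
  rw [sum_congr rfl h1, sum_ite_eq']
  by_cases hv : v 0 ∈ f.support
  · rw [if_pos hv]
  · rw [if_neg hv, Polynomial.notMem_support_iff.mp hv]

/-- The exponents. -/
noncomputable def wu (n : ℕ) : Fin n → Fin 1 →₀ ℕ := fun l => Finsupp.single 0 ((l : ℕ) + 1)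

lemma wu_apply (n : ℕ) (l : Fin n) (i : Fin 1) : wu n l i = (l : ℕ) + 1 := by
  unfold wu
  rw [Subsingleton.elim i 0, Finsupp.single_eq_same]

lemma wu_inj (n : ℕ) : Function.Injective (wu n) := by
  intro l l' h
  apply Fin.ext
  have h1 := DFunLike.congr_fun h 0
  rw [wu_apply, wu_apply] at h1
  omega

lemma wu_pos (n : ℕ) (l : Fin n) (i : Fin 1) : 1 ≤ wu n l i := by
  rw [wu_apply]
  omega

lemma monomial_wu (n : ℕ) (l : Fin n) :
    MvPolynomial.monomial (wu n l) (1 : R) = emb (Polynomial.X ^ ((l : ℕ) + 1)) := by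
  rw [map_pow, emb_X, MvPolynomial.X_pow_eq_monomial]
  rfl

lemma hm_emb (n E p : ℕ) (hp : 1 ≤ p) (f : Polynomial R) :
    hm E p (wu n) (emb f) = hu n E p f := by
  ext1 i l
  unfold hm hu
  rw [Matrix.of_apply, Matrix.of_apply, monomial_wu, ← map_pow, ← map_mul, coeff_emb,
    Finsupp.smul_apply, wu_apply, smul_eq_mul]
  have h1 : p * ((i : ℕ) + 1) = p * i + (p - 1) + 1 := by
    rw [mul_add, mul_one]
    omega
  have h2 : Polynomial.X ^ ((l : ℕ) + 1) * f ^ E = Polynomial.X * (Polynomial.X ^ (l : ℕ) * f ^ E) := by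
    rw [pow_succ']
    ring
  rw [h1, h2, Polynomial.coeff_X_mul]

lemma supp_cond (n m E p : ℕ) (hE : E * m + 1 = p) (f : Polynomial R)
    (hf : f.natDegree ≤ m * (n + 1)) (l : Fin n) (v : Fin 1 →₀ ℕ)
    (hv : v ∈ (MvPolynomial.monomial (wu n l) 1 * emb f ^ E).support)
    (hv' : ∃ v' : Fin 1 →₀ ℕ, v = p • v') : ∃ i, v = p • wu n i := by
  obtain ⟨v', rfl⟩ := hv'
  rw [MvPolynomial.mem_support_iff, monomial_wu, ← map_pow, ← map_mul, coeff_emb,
    Finsupp.smul_apply, smul_eq_mul] at hv
  have h1 : 1 ≤ v' 0 := by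
    by_contra h
    have h2 : v' 0 = 0 := by omega
    rw [h2, mul_zero, Polynomial.coeff_X_pow_mul', if_neg (by omega)] at hv
    exact hv rfl
  have h2 : p * v' 0 ≤ ((l : ℕ) + 1) + E * (m * (n + 1)) := by
    refine (Polynomial.le_natDegree_of_ne_zero hv).trans ?_
    refine Polynomial.natDegree_mul_le.trans (Nat.add_le_add (Polynomial.natDegree_X_pow_le _) ?_)
    exact Polynomial.natDegree_pow_le.trans (Nat.mul_le_mul_left _ hf)
  have h3 : ((l : ℕ) + 1) + E * (m * (n + 1)) < p * (n + 1) := by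
    have h4 : p * (n + 1) = E * (m * (n + 1)) + (n + 1) := by
      rw [← hE]
      ring
    have := l.2
    omega
  have h4 : v' 0 < n + 1 := lt_of_mul_lt_mul_left (h2.trans_lt h3) (Nat.zero_le _)
  refine ⟨⟨v' 0 - 1, by omega⟩, ?_⟩
  congr 1
  refine DFunLike.ext _ _ fun i => ?_
  rw [wu_apply, Subsingleton.elim i 0]
  simp only
  omega

end

section

variable {A : Type} [CommRing A]

lemma scal_emb (r : ℕ) (G : Polynomial (Polynomial A)) :
    scal (fun _ : Fin 1 => r) 1 1 (emb G) =
      emb (G.comp (Polynomial.C (Polynomial.X ^ r) * Polynomial.X)) := by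
  have h : (scal (fun _ : Fin 1 => r) (1 : A) 1).comp emb =
      emb.comp (Polynomial.compRingHom (Polynomial.C (Polynomial.X ^ r) * Polynomial.X)) := by
    apply Polynomial.ringHom_ext
    · intro c
      rw [RingHom.comp_apply, RingHom.comp_apply, emb_C, Polynomial.coe_compRingHom_apply,
        Polynomial.C_comp, emb_C]
      unfold scal
      rw [MvPolynomial.eval₂Hom_C, RingHom.comp_apply, Polynomial.coe_eval₂RingHom]
      congr 1
      rw [pow_one, map_one, one_mul]
      exact Polynomial.eval₂_C_X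
    · rw [RingHom.comp_apply, RingHom.comp_apply, emb_X, Polynomial.coe_compRingHom_apply,
        Polynomial.X_comp, map_mul, emb_C, emb_X]
      unfold scal
      rw [MvPolynomial.eval₂Hom_X']
  exact congrArg (fun ψ => ψ G) h

/-- The exponents of the Laurent monomials in one variable. -/
def x1 (k : ℤ) : Fin 1 → ℤ := fun _ => k

lemma toL_emb_C (c : Polynomial A) : toL (emb (Polynomial.C c)) = cst (c : PowerSeries A) := by
  rw [emb_C, toL_C]

lemma toL_emb_X : toL (emb (Polynomial.X : Polynomial (Polynomial A))) = xm (x1 1) := by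
  rw [emb_X]
  unfold toL
  rw [MvPolynomial.eval₂Hom_X']
  congr 1
  funext i
  rw [Subsingleton.elim i 0, Pi.single_eq_same]
  rfl

lemma nsmul_x1 (k : ℕ) (a : ℤ) : k • x1 a = x1 (k * a) := by
  funext i
  change k • a = k * a
  rw [nsmul_eq_mul]

/-- The normal form of a chart. -/
lemma chart_norm {m c k : ℕ} {κ κ' μ : A} (hκ : κ * κ' = 1) (hμ : (m : A) ^ 2 * μ = 1)
    (P R : Polynomial (Polynomial A))
    (hP : P = Polynomial.C (Polynomial.X ^ (m * c)) *
      (Polynomial.C (Polynomial.C κ) * Polynomial.X ^ (m * k) +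
        Polynomial.C Polynomial.X * R)) :
    ∃ y : Polynomial (LP (Fin 1) A), y.coeff 0 = 0 ∧ toL (emb P) =
      PowerSeries.X ^ (m * c) * (cst (PowerSeries.C κ) * xm (x1 ((m : ℤ) * k)) *
          (1 + (m : PowerSeries (LP (Fin 1) A)) ^ 2 * (y : PowerSeries (LP (Fin 1) A)))) := by
  refine ⟨Polynomial.X * (Polynomial.C (algebraMap A (LP (Fin 1) A) (μ * κ')) *
    xP (x1 (-((m : ℤ) * k))) * toP (emb R)), by rw [Polynomial.coeff_X_mul_zero], ?_⟩
  have hX : ∀ n : ℕ, (cst ((Polynomial.X ^ n : Polynomial A) : PowerSeries A) :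
      PowerSeries (LP (Fin 1) A)) = PowerSeries.X ^ n := by
    intro n
    rw [Polynomial.coe_pow, Polynomial.coe_X, map_pow]
    congr 1
    unfold cst
    rw [PowerSeries.map_X]
  have hu : cst (PowerSeries.C κ) * cst (PowerSeries.C κ') =
      (1 : PowerSeries (LP (Fin 1) A)) := by
    rw [← map_mul, ← map_mul, hκ, map_one, map_one]
  have hx : (xm (x1 ((m : ℤ) * k)) : PowerSeries (LP (Fin 1) A)) * xm (x1 (-((m : ℤ) * k))) = 1 := by
    rw [← xm_add, ← xm_zero]
    congr 1
    funext i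
    change (m : ℤ) * k + -((m : ℤ) * k) = 0
    ring
  have hmu : (m : PowerSeries (LP (Fin 1) A)) ^ 2 * cst (PowerSeries.C μ) = 1 := by
    have : (m : PowerSeries (LP (Fin 1) A)) = cst (PowerSeries.C (m : A)) := by
      rw [map_natCast, map_natCast]
    rw [this, ← map_pow, ← map_pow, ← map_mul, ← map_mul, hμ, map_one, map_one]
  have hco : (Polynomial.C (algebraMap A (LP (Fin 1) A) (μ * κ')) :
      PowerSeries (LP (Fin 1) A)) = cst (PowerSeries.C μ) * cst (PowerSeries.C κ') := by
    rw [← map_mul, ← map_mul, Polynomial.coe_C]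
    unfold cst
    rw [PowerSeries.map_C]
  have hX1 := hX 1
  rw [pow_one, pow_one] at hX1
  rw [hP, map_mul emb, map_mul toL, toL_emb_C, hX, map_add emb, map_add toL,
    map_mul emb (Polynomial.C (Polynomial.C κ)), map_mul toL, toL_emb_C, map_pow emb, map_pow toL,
    toL_emb_X, map_mul emb (Polynomial.C Polynomial.X) R, map_mul toL, toL_emb_C, hX1, xm_pow,
    nsmul_x1]
  congr 1
  rw [Polynomial.coe_mul, Polynomial.coe_mul, Polynomial.coe_mul, coe_xP, coe_toP,
    hco, Polynomial.coe_C, Polynomial.coe_X]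
  have h5 : x1 (((m * k : ℕ) : ℤ) * 1) = x1 ((m : ℤ) * k) := by
    congr 1
    push_cast
    ring
  rw [h5]
  set a := (cst (PowerSeries.C κ) : PowerSeries (LP (Fin 1) A)) with ha
  set b := (cst (PowerSeries.C κ') : PowerSeries (LP (Fin 1) A))
  set x := (xm (x1 ((m : ℤ) * k)) : PowerSeries (LP (Fin 1) A))
  set x' := (xm (x1 (-((m : ℤ) * k))) : PowerSeries (LP (Fin 1) A))
  calc a * x + PowerSeries.X * toL (emb R) = a * x + (a * b) * (x * x') *
        ((m : PowerSeries (LP (Fin 1) A)) ^ 2 * cst (PowerSeries.C μ)) *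
          (PowerSeries.X * toL (emb R)) := by
        rw [hu, hx, hmu, one_mul, one_mul, one_mul]
    _ = _ := by ring

end

end Pool.Agent.Q267.MU
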