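import Mathlib

/-!
# The Hasse-Witt matrix of `y ^ m = f(x)` and translations

`hu E p f` has the entries: coefficient of `x ^ (p (i + 1))` in `x ^ (l + 1) f ^ E`, which is the
coefficient of `x ^ (p i + p - 1)` in `x ^ l f ^ E`. For the translated polynomial `f(x + a)` it is
conjugated, in the sense of Frobenius, by the matrix of the translation.
-/

set_option autoImplicit false

open Finset Polynomial

namespace Pool.Agent.Q267.MU

section

variable {R : Type} [CommRing R]

/-- The Hasse-Witt matrix. -/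
noncomputable def hu (n E p : ℕ) (f : Polynomial R) : Matrix (Fin n) (Fin n) R :=
  Matrix.of fun i l => (X ^ (l : ℕ) * f ^ E).coeff (p * i + (p - 1))

/-- The matrix of the translation. -/
def tr (n : ℕ) (a : R) : Matrix (Fin n) (Fin n) R :=
  Matrix.of fun u l => a ^ ((l : ℕ) - u) * ((l : ℕ).choose u : R)

lemma coeff_trans (G : Polynomial R) (a : R) (M B : ℕ) (hG : G.natDegree < B) :
    (G.comp (X + C a)).coeff M = ∑ N ∈ range B, G.coeff N * (a ^ (N - M) * (N.choose M : R)) := by
  conv_lhs => rw [G.as_sum_range' B hG]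
  rw [Polynomial.sum_comp, finsetSum_coeff]
  refine sum_congr rfl fun N _ => ?_
  rw [monomial_comp, coeff_C_mul, coeff_X_add_C_pow]

/-- Lucas. -/
lemma choose_lucas {p : ℕ} (hp : p.Prime) [CharP R p] (N i : ℕ) :
    ((N.choose (p * i + (p - 1)) : ℕ) : R) =
      if N % p = p - 1 then (((N / p).choose i : ℕ) : R) else 0 := by
  have hfact : Fact p.Prime := ⟨hp⟩
  have h1 := Choose.choose_modEq_choose_mod_mul_choose_div_nat (n := N) (k := p * i + (p - 1))
    (p := p)
  have hp1 : 1 ≤ p := hp.one_lt.le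
  have h2 : (p * i + (p - 1)) % p = p - 1 := by
    rw [Nat.mul_add_mod]
    exact Nat.mod_eq_of_lt (by omega)
  have h3 : (p * i + (p - 1)) / p = i := by
    rw [Nat.mul_add_div (by omega), Nat.div_eq_of_lt (by omega), add_zero]
  rw [h2, h3] at h1
  have h4 := (CharP.natCast_eq_natCast' R p h1)
  rw [h4]
  split_ifs with h
  · rw [h, Nat.choose_self, one_mul]
  · have h5 : N % p < p := Nat.mod_lt _ (by omega)
    rw [Nat.choose_eq_zero_of_lt (by omega : N % p < p - 1), zero_mul, Nat.cast_zero]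

lemma law1 {p : ℕ} (hp : p.Prime) [CharP R p] (n : ℕ) (G : Polynomial R)
    (hG : G.natDegree < p * n + (p - 1)) (a : R) (i : Fin n) :
    (G.comp (X + C a)).coeff (p * i + (p - 1)) =
      ∑ r : Fin n, tr n (a ^ p) i r * G.coeff (p * r + (p - 1)) := by
  classical
  have hp1 : 1 ≤ p := hp.one_lt.le
  rw [coeff_trans G a _ _ hG]
  -- the terms with `N = p r + p - 1`
  have h1 : ∑ r : Fin n, tr n (a ^ p) i r * G.coeff (p * r + (p - 1)) =
      ∑ N ∈ (univ : Finset (Fin n)).image (fun r : Fin n => p * (r : ℕ) + (p - 1)),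
        G.coeff N * (a ^ (N - (p * i + (p - 1))) * (N.choose (p * i + (p - 1)) : R)) := by
    rw [sum_image]
    · refine sum_congr rfl fun r _ => ?_
      rw [choose_lucas hp, if_pos (by
        rw [Nat.mul_add_mod]
        exact Nat.mod_eq_of_lt (by omega))]
      have h3 : (p * (r : ℕ) + (p - 1)) / p = r := by
        rw [Nat.mul_add_div (by omega), Nat.div_eq_of_lt (by omega), add_zero]
      have h4 : p * (r : ℕ) + (p - 1) - (p * i + (p - 1)) = p * ((r : ℕ) - i) := by
        rw [Nat.mul_sub]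
        omega
      rw [h3, h4, tr, Matrix.of_apply, ← pow_mul]
      ring
    · intro r _ r' _ h
      apply Fin.ext
      have : p * (r : ℕ) = p * (r' : ℕ) := by
        simp only at h
        omega
      exact Nat.eq_of_mul_eq_mul_left hp1 this
  rw [h1]
  symm
  refine sum_subset ?_ ?_
  · intro N hN
    obtain ⟨r, _, rfl⟩ := mem_image.mp hN
    rw [mem_range]
    have := Nat.mul_lt_mul_of_pos_left r.2 hp1
    omega
  · intro N hN hN'
    rw [choose_lucas hp]
    split_ifs with h
    · exfalso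
      apply hN'
      rw [mem_image]
      have h2 := Nat.div_add_mod N p
      rw [mem_range] at hN
      refine ⟨⟨N / p, ?_⟩, mem_univ _, ?_⟩
      · by_contra hno
        push Not at hno
        have := Nat.mul_le_mul_left p hno
        omega
      · simp only
        omega
    · rw [mul_zero, mul_zero]

lemma X_add_pow (n : ℕ) (a : R) (l : Fin n) :
    (X + C a) ^ (l : ℕ) = ∑ u : Fin n, X ^ (u : ℕ) * C (tr n a u l) := by
  have h1 : ∑ u : Fin n, X ^ (u : ℕ) * C (tr n a u l) =
      ∑ u ∈ range n, X ^ u * C (a ^ ((l : ℕ) - u) * ((l : ℕ).choose u : R)) :=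
    Fin.sum_univ_eq_sum_range (fun u => X ^ u * C (a ^ ((l : ℕ) - u) * ((l : ℕ).choose u : R))) n
  rw [h1, add_pow]
  refine (sum_subset ?_ ?_).trans (sum_congr rfl fun u _ => ?_)
  · intro u hu
    rw [mem_range] at hu ⊢
    have := l.2
    omega
  · intro u _ hu
    rw [mem_range] at hu
    rw [Nat.choose_eq_zero_of_lt (by omega), Nat.cast_zero, mul_zero]
  · rw [C_mul, C_pow, C_eq_natCast]
    ring

/-- **The translation law.** -/
theorem law {p : ℕ} (hp : p.Prime) [CharP R p] (n m E : ℕ) (hE : E * m + 1 = p) (f : Polynomial R)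
    (hf : f.natDegree ≤ m * (n + 1)) (a : R) :
    hu n E p (f.comp (X + C a)) * tr n a = tr n (a ^ p) * hu n E p f := by
  have hp1 : 1 ≤ p := hp.one_lt.le
  ext1 i l
  rw [Matrix.mul_apply, Matrix.mul_apply]
  have h1 : ∑ u, hu n E p (f.comp (X + C a)) i u * tr n a u l =
      ((X ^ (l : ℕ) * f ^ E).comp (X + C a)).coeff (p * i + (p - 1)) := by
    rw [mul_comp, X_pow_comp, pow_comp, X_add_pow, sum_mul, finsetSum_coeff]
    refine sum_congr rfl fun u _ => ?_
    rw [mul_right_comm, coeff_mul_C]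
    rfl
  rw [h1, law1 hp n _ ?_ a i]
  · rfl
  · have h2 : (X ^ (l : ℕ) * f ^ E).natDegree ≤ l + E * (m * (n + 1)) := by
      refine natDegree_mul_le.trans (Nat.add_le_add (natDegree_X_pow_le _) ?_)
      exact natDegree_pow_le.trans (Nat.mul_le_mul_left _ hf)
    have h3 : E * (m * (n + 1)) = (p - 1) * (n + 1) := by
      rw [← mul_assoc]
      congr 1
      omega
    have h4 : (p - 1) * (n + 1) = p * n + (p - 1) - n := by
      obtain ⟨q, rfl⟩ : ∃ q, p = q + 1 := ⟨p - 1, by omega⟩
      rw [Nat.add_sub_cancel]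
      have : (q + 1) * n + q = q * (n + 1) + n := by ring
      rw [this, Nat.add_sub_cancel]
    have h5 := l.2
    have h6 : n ≤ p * n := Nat.le_mul_of_pos_left n hp1
    omega

lemma hu_map {S : Type} [CommRing S] (φ : R →+* S) (n E p : ℕ) (f : Polynomial R) :
    hu n E p (f.map φ) = (hu n E p f).map φ := by
  ext1 i l
  rw [Matrix.map_apply]
  unfold hu
  rw [Matrix.of_apply, Matrix.of_apply, ← coeff_map, Polynomial.map_mul, Polynomial.map_pow,
    Polynomial.map_pow, Polynomial.map_X]

lemma det_hu_map {S : Type} [CommRing S] (φ : R →+* S) (n E p : ℕ) (f : Polynomial R) :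
    (hu n E p (f.map φ)).det = φ (hu n E p f).det := by
  rw [hu_map, RingHom.map_det]
  rfl

/-- Scalings. -/
lemma det_scale (n E p B : ℕ) (z : R) (f g : Polynomial R)
    (h : f.comp (C z * X) = C (z ^ B) * g) :
    z ^ (∑ i : Fin n, (p * (i : ℕ) + (p - 1))) * (hu n E p f).det =
      z ^ (∑ l : Fin n, ((l : ℕ) + B * E)) * (hu n E p g).det := by
  have h1 : Matrix.diagonal (fun i : Fin n => z ^ (p * (i : ℕ) + (p - 1))) * hu n E p f =
      hu n E p g * Matrix.diagonal (fun l : Fin n => z ^ ((l : ℕ) + B * E)) := by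
    ext1 i l
    rw [Matrix.diagonal_mul, Matrix.mul_diagonal]
    unfold hu
    rw [Matrix.of_apply, Matrix.of_apply, mul_comm, ← comp_C_mul_X_coeff, mul_comp, X_pow_comp,
      pow_comp, h, mul_pow, mul_pow, ← C_pow, ← C_pow, ← pow_mul]
    have h2 : C (z ^ (l : ℕ)) * X ^ (l : ℕ) * (C (z ^ (B * E)) * g ^ E) =
        C (z ^ ((l : ℕ) + B * E)) * (X ^ (l : ℕ) * g ^ E) := by
      rw [pow_add, C_mul]
      ring
    rw [h2, coeff_C_mul, mul_comm]
  have h3 := congrArg Matrix.det h1
  rwa [Matrix.det_mul, Matrix.det_mul, Matrix.det_diagonal, Matrix.det_diagonal,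
    prod_pow_eq_pow_sum, prod_pow_eq_pow_sum, mul_comm (hu n E p g).det] at h3

end

end Pool.Agent.Q267.MU
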