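import Pool.Agent.Q267.MU.Star

/-!
# The determinant of the periods is not zero

The centres `b_j` and radii `r_j` of the discs `D_j`: for `k` in `D_j` the difference `b_k - b_j` is
divisible by `S ^ (r_j + 1)`, for the other `k` it is not divisible by `S ^ (r_j)`. The periods of
the forms `∏_(k ≠ l) (x - b_k)` are, up to a power of `S`, congruent modulo `S` to the matrix which
indicates that `b_l` is in `D_j`. This matrix is unipotent.
-/

set_option autoImplicit false

open Finset

namespace Pool.Agent.Q267.MU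

open Pool.Agent.Q267.ST Pool.Agent.Q267.AP
open Pool.Agent.Q267.TD (tper)

section lead

variable {L : Type} [CommRing L]

/-- `F = S ^ d (c + O(S))`. -/
def Ld (F : PowerSeries L) (d : ℕ) (c : L) : Prop :=
  ∃ R : PowerSeries L, F = PowerSeries.X ^ d * (PowerSeries.C c + PowerSeries.X * R)

lemma Ld.mul {F G : PowerSeries L} {d e : ℕ} {a c : L} (hF : Ld F d a) (hG : Ld G e c) :
    Ld (F * G) (d + e) (a * c) := by
  obtain ⟨R, rfl⟩ := hF
  obtain ⟨Q, rfl⟩ := hG
  refine ⟨PowerSeries.C a * Q + R * (PowerSeries.C c + PowerSeries.X * Q), ?_⟩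
  rw [map_mul]
  ring

lemma Ld.prod {β : Type} (s : Finset β) (F : β → PowerSeries L) (d : β → ℕ) (c : β → L)
    (h : ∀ i ∈ s, Ld (F i) (d i) (c i)) : Ld (∏ i ∈ s, F i) (∑ i ∈ s, d i) (∏ i ∈ s, c i) := by
  classical
  induction s using Finset.induction_on with
  | empty => exact ⟨0, by simp⟩
  | insert a s ha ih =>
    rw [prod_insert ha, sum_insert ha, prod_insert ha]
    exact (h a (mem_insert_self _ _)).mul (ih fun i hi => h i (mem_insert_of_mem hi))

end lead

section zeta

variable {A : Type} [CommRing A] {n : ℕ}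

/-- The matrix of the relation `l ∈ D j` is unipotent. -/
lemma det_zeta (r : Fin n → ℕ) (D : Fin n → Finset (Fin n)) (hself : ∀ j, j ∈ D j)
    (hlt : ∀ j, ∀ l ∈ D j, l ≠ j → r j < r l) :
    (Matrix.of fun j l : Fin n => if l ∈ D j then (1 : A) else 0).det = 1 := by
  classical
  have hB : Matrix.BlockTriangular (Matrix.of fun j l : Fin n => if l ∈ D j then (1 : A) else 0)
      r := by
    intro i j hij
    rw [Matrix.of_apply, if_neg]
    intro h
    have hne : j ≠ i := by
      rintro rfl
      exact lt_irrefl _ hij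
    exact absurd (hlt i j h hne) (by omega)
  rw [hB.det]
  refine prod_eq_one fun a _ => ?_
  have h1 : (Matrix.of fun j l : Fin n => if l ∈ D j then (1 : A) else 0).toSquareBlock r a =
      1 := by
    ext1 i j
    rw [Matrix.toSquareBlock_def, Matrix.of_apply, Matrix.of_apply]
    by_cases hij : i = j
    · subst hij
      rw [if_pos (hself _), Matrix.one_apply_eq]
    · rw [Matrix.one_apply_ne hij, if_neg]
      intro h
      have h2 := hlt i j h (fun h3 => hij (Subtype.ext h3.symm))
      rw [i.2, j.2] at h2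
      exact lt_irrefl _ h2
  rw [h1, Matrix.det_one]

end zeta

section

variable {A : Type} [CommRing A] {n : ℕ}

lemma x1_add (a c : ℤ) : (x1 a + x1 c : Fin 1 → ℤ) = x1 (a + c) := rfl

/-- The coordinate `x = b + S ^ r u` as a power series over the Laurent polynomials in `u`. -/
noncomputable def yy (b : Polynomial A) (r : ℕ) : PowerSeries (LP (Fin 1) A) :=
  PowerSeries.X ^ r * xm (x1 1) + cst (b : PowerSeries A)

/-- Polynomials in `x` in the chart. -/
noncomputable def th (y : PowerSeries (LP (Fin 1) A)) :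
    Polynomial (Polynomial A) →+* PowerSeries (LP (Fin 1) A) :=
  Polynomial.eval₂RingHom (cst.comp (Polynomial.coeToPowerSeries.ringHom (R := A))) y

lemma th_C (y : PowerSeries (LP (Fin 1) A)) (c : Polynomial A) :
    th y (Polynomial.C c) = cst (c : PowerSeries A) := by
  unfold th
  rw [Polynomial.coe_eval₂RingHom, Polynomial.eval₂_C]
  rfl

lemma th_X (y : PowerSeries (LP (Fin 1) A)) : th y Polynomial.X = y := by
  unfold th
  rw [Polynomial.coe_eval₂RingHom, Polynomial.eval₂_X]

lemma cx_yy_pow (b : Polynomial A) (r : ℕ) (Ψ : PowerSeries (LP (Fin 1) A)) (l : Fin n) :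
    cx (x1 (-1)) (yy b r ^ (l : ℕ) * Ψ) =
      ∑ u : Fin n, tper (fun _ : Fin 1 => r) Ψ (wu n u) *
        ((tr n b u l : Polynomial A) : PowerSeries A) := by
  have h1 := congrArg (th (PowerSeries.X ^ r * xm (x1 1))) (X_add_pow n b l)
  rw [map_pow, map_add, th_X, th_C, map_sum] at h1
  have h2 : yy b r ^ (l : ℕ) = ∑ u : Fin n, cst ((tr n b u l : Polynomial A) : PowerSeries A) *
      (PowerSeries.X ^ (r * (u : ℕ)) * xm (x1 (u : ℕ))) := by
    unfold yy
    rw [h1]
    refine sum_congr rfl fun u _ => ?_
    rw [map_mul, map_pow, th_X, th_C, mul_pow, xm_pow, nsmul_x1, mul_one, ← pow_mul, mul_comm]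
  rw [h2, sum_mul, cx_sum]
  refine sum_congr rfl fun u _ => ?_
  have h3 : (PowerSeries.X ^ (r * (u : ℕ)) : PowerSeries (LP (Fin 1) A)) =
      cst (PowerSeries.X ^ (r * (u : ℕ))) := by
    unfold cst
    rw [map_pow, PowerSeries.map_X]
  rw [mul_assoc, cx_cst_mul, mul_comm]
  congr 1
  rw [h3, mul_assoc, cx_cst_mul, cx_xm_mul]
  unfold tper
  have h4 : ∑ i : Fin 1, r * (wu n u i - 1) = r * (u : ℕ) := by
    simp [wu_apply]
  rw [h4]
  congr 2
  funext i
  change -1 - ((u : ℕ) : ℤ) = -((wu n u i : ℕ) : ℤ)
  rw [wu_apply]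
  push_cast
  ring

lemma cx_th (b : Polynomial A) (r : ℕ) (Ψ : PowerSeries (LP (Fin 1) A))
    (G : Polynomial (Polynomial A)) (hG : G.natDegree < n) :
    cx (x1 (-1)) (th (yy b r) G * Ψ) =
      ∑ l : Fin n, (∑ u : Fin n, tper (fun _ : Fin 1 => r) Ψ (wu n u) *
        ((tr n b u l : Polynomial A) : PowerSeries A)) *
          ((G.coeff l : Polynomial A) : PowerSeries A) := by
  conv_lhs => rw [G.as_sum_range' n hG]
  rw [map_sum, sum_mul, cx_sum, ← Fin.sum_univ_eq_sum_range (fun l => cx (x1 (-1))
    (th (yy b r) (Polynomial.monomial l (G.coeff l)) * Ψ)) n]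
  refine sum_congr rfl fun l _ => ?_
  rw [← cx_yy_pow, ← Polynomial.C_mul_X_pow_eq_monomial, map_mul, map_pow, th_C, th_X, mul_assoc,
    cx_cst_mul, mul_comm]

/-- The forms `∏_(k ≠ l) (x - b_k)`. -/
noncomputable def Gp (b : Fin n → Polynomial A) (l : Fin n) : Polynomial (Polynomial A) :=
  ∏ k ∈ univ.erase l, (Polynomial.X - Polynomial.C (b k))

lemma natDegree_Gp (b : Fin n → Polynomial A) (l : Fin n) : (Gp b l).natDegree < n := by
  have h1 : (Gp b l).natDegree ≤ ∑ _k ∈ univ.erase l, 1 := by
    unfold Gp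
    refine (Polynomial.natDegree_prod_le _ _).trans (sum_le_sum fun k _ => ?_)
    exact Polynomial.natDegree_X_sub_C_le _
  rw [sum_const, smul_eq_mul, mul_one, card_erase_of_mem (mem_univ l), card_univ,
    Fintype.card_fin] at h1
  have := l.2
  omega

/-- The entries of the matrix of the periods of these forms. -/
lemma star_entry (b : Fin n → Polynomial A) (r : Fin n → ℕ) (D : Fin n → Finset (Fin n))
    (hself : ∀ j, j ∈ D j)
    (hin : ∀ j, ∀ k ∈ D j, Polynomial.X ^ (r j + 1) ∣ b k - b j)
    (v : Fin n → Fin n → ℕ) (α : Fin n → Fin n → A) (ρ : Fin n → Fin n → Polynomial A)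
    (hv : ∀ j k, k ∉ D j → v j k < r j)
    (hout : ∀ j k, k ∉ D j → b j - b k =
      Polynomial.X ^ v j k * (Polynomial.C (α j k) + Polynomial.X * ρ j k))
    (ψ : Fin n → PowerSeries (LP (Fin 1) A)) (hψ : ∀ j, PowerSeries.constantCoeff (ψ j) = 1)
    (j l : Fin n) :
    ∃ ε : PowerSeries A,
      cx (x1 (-1)) (th (yy (b j) (r j)) (Gp b l) * (xm (x1 (-((D j).card : ℤ))) * ψ j)) =
        PowerSeries.X ^ (∑ k ∈ univ.erase j, if k ∈ D j then r j else v j k) * ε ∧
      PowerSeries.constantCoeff ε =
        if l ∈ D j then ∏ k ∈ univ.filter (fun k => k ∉ D j), α j k else 0 := by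
  classical
  -- the factors
  have hfac : ∀ k, Ld (yy (b j) (r j) - cst ((b k : Polynomial A) : PowerSeries A))
      (if k ∈ D j then r j else v j k)
      (if k ∈ D j then (AddMonoidAlgebra.single (x1 1) 1 : LP (Fin 1) A)
        else AddMonoidAlgebra.single 0 (α j k)) := by
    intro k
    by_cases hk : k ∈ D j
    · rw [if_pos hk, if_pos hk]
      obtain ⟨q, hq⟩ := hin j k hk
      refine ⟨-cst (q : PowerSeries A), ?_⟩
      have h1 : cst ((b k : Polynomial A) : PowerSeries A) =
          (cst ((b j : Polynomial A) : PowerSeries A) : PowerSeries (LP (Fin 1) A)) +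
            PowerSeries.X ^ (r j + 1) * cst (q : PowerSeries A) := by
        have h2 : b k = b j + Polynomial.X ^ (r j + 1) * q := by rw [← hq]; ring
        rw [h2, Polynomial.coe_add, Polynomial.coe_mul, Polynomial.coe_pow, Polynomial.coe_X,
          map_add, map_mul, map_pow]
        congr 2
        unfold cst
        rw [PowerSeries.map_X]
      rw [h1]
      unfold yy xm
      ring
    · rw [if_neg hk, if_neg hk]
      obtain ⟨w, hw⟩ := Nat.exists_eq_add_of_lt (hv j k hk)
      refine ⟨cst (ρ j k : PowerSeries A) + PowerSeries.X ^ w * xm (x1 1), ?_⟩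
      have h1 : (cst ((b j : Polynomial A) : PowerSeries A) : PowerSeries (LP (Fin 1) A)) =
          cst ((b k : Polynomial A) : PowerSeries A) +
            PowerSeries.X ^ v j k * (PowerSeries.C (AddMonoidAlgebra.single 0 (α j k)) +
              PowerSeries.X * cst (ρ j k : PowerSeries A)) := by
        have h2 : b j = b k +
            Polynomial.X ^ v j k * (Polynomial.C (α j k) + Polynomial.X * ρ j k) := by
          rw [← hout j k hk]
          ring
        rw [h2]
        simp only [Polynomial.coe_add, Polynomial.coe_mul, Polynomial.coe_pow, Polynomial.coe_X,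
          Polynomial.coe_C, map_add, map_mul, map_pow, cst_C]
        have h3 : (cst (PowerSeries.X : PowerSeries A) : PowerSeries (LP (Fin 1) A)) = PowerSeries.X := by
          unfold cst
          rw [PowerSeries.map_X]
        rw [h3]
      unfold yy
      rw [h1, hw]
      ring
  have hprod := Ld.prod (univ.erase l) _ _ _ fun k _ => hfac k
  have hth : th (yy (b j) (r j)) (Gp b l) =
      ∏ k ∈ univ.erase l, (yy (b j) (r j) - cst ((b k : Polynomial A) : PowerSeries A)) := by
    unfold Gp
    rw [map_prod]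
    refine prod_congr rfl fun k _ => ?_
    rw [map_sub, th_X, th_C]
  rw [← hth] at hprod
  have hΨ : Ld (xm (x1 (-((D j).card : ℤ))) * ψ j) 0
      (AddMonoidAlgebra.single (x1 (-((D j).card : ℤ))) 1 : LP (Fin 1) A) := by
    refine ⟨xm (x1 (-((D j).card : ℤ))) * (PowerSeries.mk fun i => PowerSeries.coeff (i + 1) (ψ j)),
      ?_⟩
    have h1 : ψ j = 1 + PowerSeries.X * (PowerSeries.mk fun i => PowerSeries.coeff (i + 1) (ψ j)) := by
      have h2 := PowerSeries.eq_X_mul_shift_add_const (ψ j)
      rw [hψ j, map_one] at h2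
      rw [add_comm]
      exact h2
    conv_lhs => rw [h1]
    unfold xm
    ring
  obtain ⟨R, hR⟩ := hprod.mul hΨ
  rw [add_zero] at hR
  -- the coefficient
  have hcx : ∀ (d : ℕ) (c : LP (Fin 1) A) (R : PowerSeries (LP (Fin 1) A)), cx (x1 (-1)) (PowerSeries.X ^ d *
      (PowerSeries.C c + PowerSeries.X * R)) =
      PowerSeries.X ^ d * (PowerSeries.C (c.coeff (x1 (-1))) + PowerSeries.X * cx (x1 (-1)) R) := by
    intro d c R
    have h3 : (PowerSeries.X : PowerSeries (LP (Fin 1) A)) = cst PowerSeries.X := by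
      unfold cst
      rw [PowerSeries.map_X]
    rw [h3, ← map_pow, cx_cst_mul, cx_add, cx_cst_mul]
    congr 2
    ext i
    rw [coeff_cx, PowerSeries.coeff_C, PowerSeries.coeff_C]
    split_ifs
    · rfl
    · rfl
  rw [hR, hcx]
  have htot : ∀ i : Fin n, (∑ k ∈ univ.erase i, if k ∈ D j then r j else v j k) +
      (if i ∈ D j then r j else v j i) = ∑ k, if k ∈ D j then r j else v j k := by
    intro i
    rw [add_comm]
    exact add_sum_erase univ (fun k => if k ∈ D j then r j else v j k) (mem_univ i)
  have hj := htot j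
  rw [if_pos (hself j)] at hj
  have hl := htot l
  by_cases hlD : l ∈ D j
  · rw [if_pos hlD] at hl
    have he : (∑ k ∈ univ.erase l, if k ∈ D j then r j else v j k) =
        ∑ k ∈ univ.erase j, if k ∈ D j then r j else v j k := by omega
    refine ⟨_, by rw [he], ?_⟩
    rw [map_add, map_mul, PowerSeries.constantCoeff_X, zero_mul, add_zero,
      PowerSeries.constantCoeff_C, if_pos hlD]
    -- the product of the leading coefficients
    have h1 : ∀ s : Finset (Fin n), (∏ k ∈ s, if k ∈ D j then
        (AddMonoidAlgebra.single (x1 1) 1 : LP (Fin 1) A) else AddMonoidAlgebra.single 0 (α j k)) =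
        AddMonoidAlgebra.single (x1 ((s.filter fun k => k ∈ D j).card : ℤ))
          (∏ k ∈ s.filter (fun k => k ∉ D j), α j k) := by
      intro s
      induction s using Finset.induction_on with
      | empty => simp; rfl
      | insert a s ha ih =>
        rw [prod_insert ha, ih, filter_insert, filter_insert]
        by_cases haD : a ∈ D j
        · rw [if_pos haD, if_pos haD, if_neg (not_not.mpr haD),
            card_insert_of_notMem (fun h => ha (mem_filter.mp h).1),
            AddMonoidAlgebra.single_mul_single, one_mul]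
          rw [x1_add]
          congr 2
          push_cast
          ring
        · rw [if_neg haD, if_neg haD, if_pos haD, prod_insert (fun h => ha (mem_filter.mp h).1),
            AddMonoidAlgebra.single_mul_single, zero_add]
    rw [h1, AddMonoidAlgebra.single_mul_single, mul_one]
    have h2 : ((univ.erase l).filter fun k => k ∈ D j).card + 1 = (D j).card := by
      have h3 : (univ.erase l).filter (fun k => k ∈ D j) = (D j).erase l := by
        ext k
        simp only [mem_filter, mem_erase, mem_univ, and_true]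
      rw [h3, card_erase_of_mem hlD]
      have := card_pos.mpr ⟨l, hlD⟩
      omega
    have h4 : (x1 ((((univ.erase l).filter fun k => k ∈ D j).card : ℕ) : ℤ) +
        x1 (-((D j).card : ℤ)) : Fin 1 → ℤ) = x1 (-1) := by
      rw [← h2, x1_add]
      congr 1
      push_cast
      ring
    have h5 : (univ.erase l).filter (fun k => k ∉ D j) = univ.filter (fun k => k ∉ D j) := by
      ext k
      simp only [mem_filter, mem_erase, mem_univ, and_true, true_and, and_iff_right_iff_imp]
      rintro hk rfl
      exact hk hlD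
    rw [h4, h5, AddMonoidAlgebra.coeff_single, Finsupp.single_eq_same]
  · rw [if_neg hlD] at hl
    have hvl := hv j l hlD
    obtain ⟨w, hw⟩ : ∃ w, (∑ k ∈ univ.erase l, if k ∈ D j then r j else v j k) =
        (∑ k ∈ univ.erase j, if k ∈ D j then r j else v j k) + (w + 1) :=
      ⟨(∑ k ∈ univ.erase l, if k ∈ D j then r j else v j k) -
        (∑ k ∈ univ.erase j, if k ∈ D j then r j else v j k) - 1, by omega⟩
    refine ⟨PowerSeries.X ^ (w + 1) * _, by rw [hw, pow_add, mul_assoc], ?_⟩
    rw [if_neg hlD, map_mul, map_pow, PowerSeries.constantCoeff_X, zero_pow (by omega), zero_mul]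

/-- **The determinant of the periods is not zero.** -/
theorem det_Tm_ne [IsDomain A] (b : Fin n → Polynomial A) (r : Fin n → ℕ)
    (D : Fin n → Finset (Fin n)) (hself : ∀ j, j ∈ D j)
    (hlt : ∀ j, ∀ l ∈ D j, l ≠ j → r j < r l)
    (hin : ∀ j, ∀ k ∈ D j, Polynomial.X ^ (r j + 1) ∣ b k - b j)
    (hout : ∀ j k, k ∉ D j → ∃ (v : ℕ) (α : A) (ρ : Polynomial A), v < r j ∧ α ≠ 0 ∧
      b j - b k = Polynomial.X ^ v * (Polynomial.C α + Polynomial.X * ρ))
    (ψ : Fin n → PowerSeries (LP (Fin 1) A)) (hψ : ∀ j, PowerSeries.constantCoeff (ψ j) = 1) :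
    (Tm n b r fun j => xm (x1 (-((D j).card : ℤ))) * ψ j).det ≠ 0 := by
  classical
  have hout' : ∀ j k, ∃ (v : ℕ) (α : A) (ρ : Polynomial A), k ∉ D j → v < r j ∧ α ≠ 0 ∧
      b j - b k = Polynomial.X ^ v * (Polynomial.C α + Polynomial.X * ρ) := by
    intro j k
    by_cases hk : k ∈ D j
    · exact ⟨0, 0, 0, fun h => absurd hk h⟩
    · obtain ⟨v, α, ρ, h⟩ := hout j k hk
      exact ⟨v, α, ρ, fun _ => h⟩
  choose v α ρ h using hout'
  have hent := star_entry b r D hself hin v α ρ (fun j k hk => (h j k hk).1)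
    (fun j k hk => (h j k hk).2.2) ψ hψ
  choose ε hε1 hε2 using hent
  set T := Tm n b r fun j => xm (x1 (-((D j).card : ℤ))) * ψ j with hT
  set Bm : Matrix (Fin n) (Fin n) (PowerSeries A) :=
    Matrix.of fun u l => (((Gp b l).coeff u : Polynomial A) : PowerSeries A) with hBm
  have h1 : T * Bm = Matrix.diagonal (fun j => (PowerSeries.X : PowerSeries A) ^
      (∑ k ∈ univ.erase j, if k ∈ D j then r j else v j k)) * Matrix.of fun j l => ε j l := by
    ext1 j l
    rw [Matrix.diagonal_mul, Matrix.of_apply, ← hε1, cx_th _ _ _ _ (natDegree_Gp b l),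
      Matrix.mul_apply]
    rfl
  have h2 := congrArg Matrix.det h1
  rw [Matrix.det_mul, Matrix.det_mul, Matrix.det_diagonal, prod_pow_eq_pow_sum] at h2
  have h3 : PowerSeries.constantCoeff (Matrix.of fun j l => ε j l).det ≠ 0 := by
    have h4 : ((Matrix.of fun j l => ε j l).map (PowerSeries.constantCoeff (R := A))) =
        Matrix.diagonal (fun j => ∏ k ∈ univ.filter (fun k => k ∉ D j), α j k) *
          Matrix.of fun j l : Fin n => if l ∈ D j then (1 : A) else 0 := by
      ext1 j l
      rw [Matrix.map_apply, Matrix.of_apply, Matrix.diagonal_mul, Matrix.of_apply, hε2]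
      split_ifs
      · rw [mul_one]
      · rw [mul_zero]
    rw [RingHom.map_det]
    change ((Matrix.of fun j l => ε j l).map (PowerSeries.constantCoeff (R := A))).det ≠ 0
    rw [h4, Matrix.det_mul, det_zeta r D hself hlt, mul_one, Matrix.det_diagonal]
    refine prod_ne_zero_iff.mpr fun j _ => prod_ne_zero_iff.mpr fun k hk => ?_
    exact (h j k (mem_filter.mp hk).2).2.1
  intro h0
  rw [h0, zero_mul] at h2
  rcases mul_eq_zero.mp h2.symm with h4 | h4
  · exact pow_ne_zero _ PowerSeries.X_ne_zero h4
  · rw [h4, map_zero] at h3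
    exact h3 rfl

end

end Pool.Agent.Q267.MU
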