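import Pool.Agent.Q267.MU.Desc
import Pool.Agent.Q267.AM.Place

/-!
# The zeros of the Hasse-Witt determinant at the places of a number field
-/

set_option autoImplicit false

open Finset

namespace Pool.Agent.Q267.MU

open Pool.Agent.Q267.ST Pool.Agent.Q267.AP
open NumberField IsDedekindDomain
open Pool.Agent.Q267.OD (charP_res finite_mem)
open Pool.Agent.Q267.DC (card_res)

section

variable {K : Type} [Field K] [NumberField K] {n : ℕ}

/-- The family near the point `s`, over the algebraic closure. -/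
noncomputable def nearU (H : ℕ) (s : Option K) (f : Polynomial (Polynomial (𝓞 K))) :
    Polynomial (Polynomial (AlgebraicClosure K)) :=
  match s with
  | some s₀ => (f.map (Polynomial.mapRingHom ((algebraMap K (AlgebraicClosure K)).comp
      (algebraMap (𝓞 K) K)))).map (Polynomial.compRingHom (Polynomial.X +
        Polynomial.C (algebraMap K (AlgebraicClosure K) s₀)))
  | none => rv H (f.map (Polynomial.mapRingHom ((algebraMap K (AlgebraicClosure K)).comp
      (algebraMap (𝓞 K) K))))

lemma rv_map {A L : Type} [CommRing A] [CommRing L] (φ : A →+* L) (H : ℕ)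
    (f : Polynomial (Polynomial A)) : (rv H f).map (Polynomial.mapRingHom φ) =
      rv H (f.map (Polynomial.mapRingHom φ)) := by
  ext1 i
  rw [Polynomial.coeff_map, coeff_rv, coeff_rv, Polynomial.coeff_map, Polynomial.coe_mapRingHom,
    Polynomial.reflect_map]

/-- The family over a finitely generated ring. -/
theorem overU (m : ℕ) (hm1 : 1 ≤ m) (f : Polynomial (Polynomial (𝓞 K)))
    (hf : f.natDegree ≤ m * (n + 1)) (H : ℕ) (hH : ∀ i, (f.coeff i).natDegree ≤ H)
    (s : Option K) (N M : ℕ) (hN : 1 ≤ N)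
    (hdeg : Deg m n (pull (m * (n + 1)) N M (nearU H s f))) (ε : ℝ) (hε : 0 < ε) :
    ∃ (A : Subalgebra (𝓞 K) (AlgebraicClosure K)) (s₀ : K) (s₁ a : A) (p₀ : ℕ),
      A.FG ∧ (s₁ : AlgebraicClosure K) = algebraMap K (AlgebraicClosure K) s₀ ∧ a ≠ 0 ∧
      ∀ (p : ℕ) (k : Type) [Field k] [CharP k p] (φ : A →+* k),
      p.Prime → p₀ ≤ p → φ a ≠ 0 → φ s₁ ^ p = φ s₁ → ∀ E : ℕ, E * m + 1 = p →
      ∀ Z : Finset k, (∀ t ∈ Z, t ^ p = t ∧ (hu n E p (f.map
        (Polynomial.mapRingHom (φ.comp (algebraMap (𝓞 K) A))))).det.eval t = 0) →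
        (Z.card : ℝ) ≤ ε * p := by
  classical
  obtain ⟨b, r, h1, h2, h3⟩ := hdeg
  choose d κ hκ0 h3 using h3
  set s₀ : K := s.getD 0 with hs₀
  set S : Finset (AlgebraicClosure K) :=
    ((univ : Finset (Fin n)).biUnion fun j => (b j).support.image (b j).coeff) ∪
    ((univ : Finset (Fin n)).image fun j => (κ j)⁻¹) ∪
    {((m : AlgebraicClosure K) ^ 2)⁻¹, algebraMap K (AlgebraicClosure K) s₀} with hS
  set A := Algebra.adjoin (𝓞 K) (S : Set (AlgebraicClosure K)) with hA
  have hsub : ∀ x ∈ S, x ∈ A := fun x hx => Algebra.subset_adjoin (mem_coe.mpr hx)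
  have hb' : ∀ j i, (b j).coeff i ∈ A := fun j i => by
    by_cases hi : i ∈ (b j).support
    · apply hsub
      rw [hS]
      exact mem_union_left _ (mem_union_left _ (mem_biUnion.mpr ⟨j, mem_univ _,
        mem_image.mpr ⟨i, hi, rfl⟩⟩))
    · rw [Polynomial.notMem_support_iff.mp hi]
      exact A.zero_mem
  have hk' : ∀ j, (κ j)⁻¹ ∈ A := fun j => hsub _ (by
      rw [hS]
      exact mem_union_left _ (mem_union_right _ (mem_image.mpr ⟨j, mem_univ _, rfl⟩)))
  have hm' : ((m : AlgebraicClosure K) ^ 2)⁻¹ ∈ A := hsub _ (by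
    rw [hS]
    exact mem_union_right _ (mem_insert_self _ _))
  have hs' : algebraMap K (AlgebraicClosure K) s₀ ∈ A := hsub _ (by
    rw [hS]
    exact mem_union_right _ (mem_insert_of_mem (mem_singleton_self _)))
  have hinj : Function.Injective (A.val : A →+* AlgebraicClosure K) := Subtype.val_injective
  have hm0 : (m : AlgebraicClosure K) ^ 2 ≠ 0 := by
    apply pow_ne_zero
    rw [Nat.cast_ne_zero]
    omega
  have hlift : ∀ j, ∃ b' : Polynomial A, b'.map (A.val : A →+* AlgebraicClosure K) = b j := by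
    intro j
    have h4 : b j ∈ Polynomial.lifts (A.val : A →+* AlgebraicClosure K) := by
      rw [Polynomial.lifts_iff_coeff_lifts]
      intro i
      exact ⟨⟨_, hb' j i⟩, rfl⟩
    exact (Polynomial.mem_lifts _).mp h4
  choose b' hb'' using hlift
  set fA := f.map (Polynomial.mapRingHom (algebraMap (𝓞 K) A)) with hfA
  have hfAd : fA.natDegree ≤ m * (n + 1) := Polynomial.natDegree_map_le.trans hf
  have hμ : (m : A) ^ 2 * ⟨_, hm'⟩ = 1 := by
    apply hinj
    rw [map_mul, map_pow, map_natCast, map_one]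
    exact mul_inv_cancel₀ hm0
  have hphi : ∀ (k : Type) [Field k] (φ : A →+* k), fA.map (Polynomial.mapRingHom φ) =
      f.map (Polynomial.mapRingHom (φ.comp (algebraMap (𝓞 K) A))) := by
    intro k _ φ
    rw [hfA, Polynomial.map_map, Polynomial.mapRingHom_comp]
  have hκ' : ∀ j, κ j * (A.val : A →+* AlgebraicClosure K) ⟨_, hk' j⟩ = 1 :=
    fun j => mul_inv_cancel₀ (hκ0 j)
  have hfL : fA.map (Polynomial.mapRingHom (A.val : A →+* AlgebraicClosure K)) =
      f.map (Polynomial.mapRingHom ((algebraMap K (AlgebraicClosure K)).comp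
        (algebraMap (𝓞 K) K))) := by
    rw [hfA, Polynomial.map_map, Polynomial.mapRingHom_comp]
    rfl
  refine ⟨A, s₀, ⟨_, hs'⟩, ?_⟩
  have hFG : A.FG := Subalgebra.fg_adjoin_finset S
  cases s with
  | some t₀ =>
    obtain ⟨p₀, a, ha, h⟩ := concUs (M := M) hm1 hN _ hμ fA hfAd ⟨_, hs'⟩
      (cfg_descent (A.val : A →+* AlgebraicClosure K) hinj _ b' r κ (fun j => ⟨_, hk' j⟩) hκ' d b
        hb'' h1 h2 (fun j => by
          have h4 : (pull (m * (n + 1)) N M (fA.map (Polynomial.compRingHom (Polynomial.X +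
              Polynomial.C (⟨_, hs'⟩ : A))))).map
              (Polynomial.mapRingHom (A.val : A →+* AlgebraicClosure K)) =
              pull (m * (n + 1)) N M (nearU H (some t₀) f) := by
            have h5 : (Polynomial.mapRingHom (A.val : A →+* AlgebraicClosure K)).comp
                (Polynomial.compRingHom (Polynomial.X + Polynomial.C (⟨_, hs'⟩ : A))) =
                (Polynomial.compRingHom (Polynomial.X +
                  Polynomial.C (algebraMap K (AlgebraicClosure K) t₀))).comp
                  (Polynomial.mapRingHom (A.val : A →+* AlgebraicClosure K)) := by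
              apply Polynomial.ringHom_ext
              · intro a
                simp
              · simp
                rfl
            rw [pull_map, Polynomial.map_map, h5, ← Polynomial.map_map, hfL]
            rfl
          rw [h4]
          exact h3 j)) ε hε
    refine ⟨a, p₀, hFG, rfl, ha, ?_⟩
    intro p k _ _ φ hpp hp0 hφ hs E he Z hZ
    exact h p k φ hpp hp0 hφ hs E he Z fun t ht => by rw [hphi]; exact hZ t ht
  | none =>
    obtain ⟨p₀, a, ha, h⟩ := concUi (M := M) hm1 hN _ hμ fA hfAd H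
      (fun i => by
        rw [hfA, Polynomial.coeff_map, Polynomial.coe_mapRingHom]
        exact Polynomial.natDegree_map_le.trans (hH i))
      (cfg_descent (A.val : A →+* AlgebraicClosure K) hinj _ b' r κ (fun j => ⟨_, hk' j⟩) hκ' d b
        hb'' h1 h2 (fun j => by
          have h4 : (pull (m * (n + 1)) N M (rv H fA)).map
              (Polynomial.mapRingHom (A.val : A →+* AlgebraicClosure K)) =
              pull (m * (n + 1)) N M (nearU H none f) := by
            rw [pull_map, rv_map, hfL]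
            rfl
          rw [h4]
          exact h3 j)) ε hε
    refine ⟨a, p₀, hFG, rfl, ha, ?_⟩
    intro p k _ _ φ hpp hp0 hφ _ E he Z hZ
    exact h p k φ hpp hp0 hφ E he Z fun t ht => by rw [hphi]; exact hZ t ht

/-- **The zeros of the Hasse-Witt determinant modulo a place.** -/
theorem placeU (hSpread : S_Spread) (m : ℕ) (hm1 : 1 ≤ m) (f : Polynomial (Polynomial (𝓞 K)))
    (hf : f.natDegree ≤ m * (n + 1)) (H : ℕ) (hH : ∀ i, (f.coeff i).natDegree ≤ H)
    (s : Option K) (N M : ℕ) (hN : 1 ≤ N)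
    (hdeg : Deg m n (pull (m * (n + 1)) N M (nearU H s f))) (ε : ℝ) (hε : 0 < ε) :
    {v : HeightOneSpectrum (𝓞 K) | (Ideal.absNorm v.asIdeal).Prime ∧
      ¬ ∀ E : ℕ, E * m + 1 = Ideal.absNorm v.asIdeal →
      ∀ Z : Finset v.asIdeal.ResidueField, (∀ t ∈ Z, (hu n E (Ideal.absNorm v.asIdeal)
        (f.map (Polynomial.mapRingHom (algebraMap (𝓞 K) v.asIdeal.ResidueField)))).det.eval t
          = 0) → (Z.card : ℝ) ≤ ε * Ideal.absNorm v.asIdeal}.Finite := by
  classical
  obtain ⟨A, s₀, s₁, a, p₀, hFG, hs, ha, h⟩ := overU m hm1 f hf H hH s N M hN hdeg ε hε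
  have hinj : Function.Injective (A.val : A →+* AlgebraicClosure K) := Subtype.val_injective
  have halg : ∀ x : 𝓞 K, ((algebraMap (𝓞 K) A x : A) : AlgebraicClosure K) =
      algebraMap K (AlgebraicClosure K) (algebraMap (𝓞 K) K x) := fun x => rfl
  have h1 : Function.Injective (algebraMap (𝓞 K) A) := by
    intro x y hxy
    have h2 := congrArg (fun z : A => (z : AlgebraicClosure K)) hxy
    simp only [halg] at h2
    exact (IsFractionRing.injective (𝓞 K) K) ((algebraMap K (AlgebraicClosure K)).injective h2)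
  have h2 : Algebra.FiniteType (𝓞 K) A := (Subalgebra.fg_iff_finiteType A).mp hFG
  have h3 : Algebra.IsAlgebraic (𝓞 K) A := by
    have h4 : Algebra.IsAlgebraic (𝓞 K) (AlgebraicClosure K) :=
      (IsFractionRing.comap_isAlgebraic_iff (A := 𝓞 K) (K := K) (C := AlgebraicClosure K)).mpr
        inferInstance
    refine ⟨fun x => ?_⟩
    exact (isAlgebraic_algHom_iff A.val Subtype.val_injective).mp
      (h4.isAlgebraic (x : AlgebraicClosure K))
  have hfin := hSpread (𝓞 K) A h1 h2 h3 a ha
  obtain ⟨x, y, hy, hxy⟩ := IsFractionRing.div_surjective (A := 𝓞 K) s₀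
  have hy0 : y ≠ 0 := nonZeroDivisors.ne_zero hy
  have hyA : algebraMap (𝓞 K) A y * s₁ = algebraMap (𝓞 K) A x := by
    apply hinj
    rw [map_mul]
    change ((algebraMap (𝓞 K) A y : A) : AlgebraicClosure K) * (s₁ : AlgebraicClosure K) =
      ((algebraMap (𝓞 K) A x : A) : AlgebraicClosure K)
    rw [halg, halg, hs, ← map_mul, ← hxy]
    congr 1
    have : algebraMap (𝓞 K) K y ≠ 0 := by
      rw [Ne, FaithfulSMul.algebraMap_eq_zero_iff]
      exact hy0
    field_simp
  refine ((hfin.union (finite_mem (K := K) y hy0)).union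
    (Pool.Agent.W352.ChAbs.finite_le (K := K) p₀)).subset ?_
  rintro v ⟨hv, hv'⟩
  by_contra hno
  simp only [Set.mem_union, Set.mem_ofPred_eq, not_or, not_not, not_le] at hno
  obtain ⟨⟨⟨k, hk, φ, hφ, hker⟩, hyv⟩, hp0⟩ := hno
  apply hv'
  intro E he Z hZ
  set p := Ideal.absNorm v.asIdeal with hp
  have hcharκ := charP_res v hv
  have hchar : CharP k p := by
    rw [CharP.charP_iff_prime_eq_zero hv]
    have h5 : (p : 𝓞 K) ∈ v.asIdeal := Ideal.absNorm_mem v.asIdeal
    rw [← hker, RingHom.mem_ker, map_natCast] at h5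
    exact h5
  have hunits : v.asIdeal.primeCompl ≤
      Submonoid.comap (φ.comp (algebraMap (𝓞 K) A)) (IsUnit.submonoid k) := fun z hz => by
    refine IsUnit.mk0 _ fun h0 => hz ?_
    rw [← hker]
    exact h0
  set ι : v.asIdeal.ResidueField →+* k := Ideal.ResidueField.lift v.asIdeal
    (φ.comp (algebraMap (𝓞 K) A)) hker.ge hunits with hι
  have hcomp : ι.comp (algebraMap (𝓞 K) v.asIdeal.ResidueField) =
      φ.comp (algebraMap (𝓞 K) A) := by
    ext z
    exact Ideal.ResidueField.lift_algebraMap v.asIdeal (φ.comp (algebraMap (𝓞 K) A)) hker.ge hunits z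
  have hcn := card_res v
  have hfinite : Finite v.asIdeal.ResidueField :=
    Nat.finite_of_card_ne_zero (by rw [hcn]; exact hv.ne_zero)
  have : Fintype v.asIdeal.ResidueField := Fintype.ofFinite _
  rw [Nat.card_eq_fintype_card] at hcn
  have hpow : ∀ t : v.asIdeal.ResidueField, t ^ p = t := fun t => by
    rw [hp, ← hcn]
    exact FiniteField.pow_card t
  have hs1 : φ s₁ ^ p = φ s₁ := by
    have h5 := congrArg φ hyA
    rw [map_mul] at h5
    have h6 : ∀ z : 𝓞 K, φ (algebraMap (𝓞 K) A z) =
        ι (algebraMap (𝓞 K) v.asIdeal.ResidueField z) := fun z => (RingHom.congr_fun hcomp z).symm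
    rw [h6, h6] at h5
    have h7 : ι (algebraMap (𝓞 K) v.asIdeal.ResidueField y) ≠ 0 := by
      rw [Ne, map_eq_zero, Ideal.algebraMap_residueField_eq_zero]
      exact hyv
    have h8 : φ s₁ = ι ((algebraMap (𝓞 K) v.asIdeal.ResidueField x) /
        (algebraMap (𝓞 K) v.asIdeal.ResidueField y)) := by
      rw [map_div₀, eq_div_iff h7, mul_comm]
      exact h5
    rw [h8, ← map_pow, hpow]
  have h5 := h p k φ hv (le_of_lt (by simpa using hp0)) hφ hs1 E he (Z.image ι) (by
    intro t ht
    obtain ⟨z, hz, rfl⟩ := mem_image.mp ht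
    refine ⟨by rw [← map_pow, hpow], ?_⟩
    rw [← hcomp, ← Polynomial.mapRingHom_comp, ← Polynomial.map_map, det_hu_map,
      Polynomial.coe_mapRingHom, Polynomial.eval_map, Polynomial.eval₂_at_apply, hZ z hz, map_zero])
  rwa [card_image_of_injective _ ι.injective] at h5

end

end Pool.Agent.Q267.MU
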