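import Pool.Agent.Q267.MU.NonV
import Pool.Agent.Q267.TD.Soft

/-!
# The zeros of the Hasse-Witt determinant of a totally degenerate family
-/

set_option autoImplicit false

open Finset

namespace Pool.Agent.Q267.MU

open Pool.Agent.Q267.ST Pool.Agent.Q267.AP
open Pool.Agent.Q267.AM (S_RootG)
open Pool.Agent.Q267.TD (tper Fr Fr_apply)
open Pool.Agent.Q267.DC (hm)

section dfin

open PowerSeries

variable {A : Type} [CommRing A]

lemma deriv_X_mul (f : PowerSeries A) (n : ℕ) :
    (d⁄dX A)^[n + 1] (X * f) = X * (d⁄dX A)^[n + 1] f + ((n + 1 : ℕ) : PowerSeries A) *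
      (d⁄dX A)^[n] f := by
  have hX : ∀ g : PowerSeries A, d⁄dX A (X * g) = X * d⁄dX A g + g := by
    intro g
    rw [Derivation.leibniz, derivative_X, smul_eq_mul, smul_eq_mul, mul_one]
  induction n with
  | zero =>
    rw [Function.iterate_succ_apply', Function.iterate_zero_apply, hX,
      Function.iterate_succ_apply', Function.iterate_zero_apply]
    push_cast
    ring
  | succ n ih =>
    rw [Function.iterate_succ_apply', ih, map_add, hX, ← Function.iterate_succ_apply' (d⁄dX A)]
    have h1 : d⁄dX A (((n + 1 : ℕ) : PowerSeries A) * (d⁄dX A)^[n] f) =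
        ((n + 1 : ℕ) : PowerSeries A) * (d⁄dX A)^[n + 1] f := by
      rw [Derivation.leibniz, Derivation.map_natCast, smul_zero, add_zero, smul_eq_mul,
        ← Function.iterate_succ_apply' (d⁄dX A)]
    rw [h1]
    push_cast
    ring

lemma dfin_of_X_mul [IsDomain A] (f : PowerSeries A) (h : DFin (X * f)) : DFin f := by
  obtain ⟨N, w, h⟩ := h
  refine ⟨N, w, fun n => ?_⟩
  induction n with
  | zero =>
    obtain ⟨q, c, hq, hc⟩ := h 0
    refine ⟨q * Polynomial.X, c, mul_ne_zero hq Polynomial.X_ne_zero, ?_⟩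
    rw [Function.iterate_zero_apply] at hc ⊢
    rw [← hc, Polynomial.coe_mul, Polynomial.coe_X]
    ring
  | succ n ih =>
    obtain ⟨q₀, c₀, hq₀, hc₀⟩ := ih
    obtain ⟨q, c, hq, hc⟩ := h (n + 1)
    refine ⟨q₀ * q * Polynomial.X, fun i => q₀ * c i - ((n + 1 : ℕ) : Polynomial A) * q * c₀ i,
      mul_ne_zero (mul_ne_zero hq₀ hq) Polynomial.X_ne_zero, ?_⟩
    rw [deriv_X_mul] at hc
    have h1 : ∑ i, ((q₀ * c i - ((n + 1 : ℕ) : Polynomial A) * q * c₀ i : Polynomial A) :
        PowerSeries A) * w i = (q₀ : PowerSeries A) * ∑ i, (c i : PowerSeries A) * w i -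
          ((n + 1 : ℕ) : PowerSeries A) * q * ∑ i, (c₀ i : PowerSeries A) * w i := by
      rw [mul_sum, mul_sum, ← sum_sub_distrib]
      refine sum_congr rfl fun i _ => ?_
      have h2 : (((n + 1 : ℕ) : Polynomial A) : PowerSeries A) = ((n + 1 : ℕ) : PowerSeries A) := by
        rw [← Polynomial.coeToPowerSeries.ringHom_apply, map_natCast]
      rw [Polynomial.coe_sub, Polynomial.coe_mul, Polynomial.coe_mul, Polynomial.coe_mul, h2]
      ring
    rw [h1, ← hc, ← hc₀, Polynomial.coe_mul, Polynomial.coe_mul, Polynomial.coe_X]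
    ring

lemma dfin_of_X_pow_mul [IsDomain A] (ν : ℕ) (f : PowerSeries A) (h : DFin (X ^ ν * f)) :
    DFin f := by
  induction ν with
  | zero => rwa [pow_zero, one_mul] at h
  | succ ν ih =>
    apply ih
    apply dfin_of_X_mul
    rwa [pow_succ', mul_assoc] at h

end dfin

section maps

variable {A k : Type} [CommRing A] [CommRing k]

lemma emb_map (φ : A →+* k) (P : Polynomial (Polynomial A)) :
    emb (P.map (Polynomial.mapRingHom φ)) =
      MvPolynomial.map (Polynomial.mapRingHom φ) (emb P) := by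
  ext1 v
  rw [coeff_emb, MvPolynomial.coeff_map, coeff_emb, Polynomial.coeff_map]

lemma tr_map (φ : A →+* k) (n : ℕ) (b : Polynomial A) (i l : Fin n) :
    tr n (b.map φ) i l = (tr n b i l).map φ := by
  unfold tr
  rw [Matrix.of_apply, Matrix.of_apply, Polynomial.map_mul, Polynomial.map_pow,
    Polynomial.map_natCast]

lemma Tm_map (φ : A →+* k) (n : ℕ) (b : Fin n → Polynomial A) (r : Fin n → ℕ)
    (Ψ : Fin n → PowerSeries (LP (Fin 1) A)) :
    Tm n (fun j => (b j).map φ) r (fun j => PowerSeries.map (LPm φ) (Ψ j)) =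
      (Tm n b r Ψ).map (PowerSeries.map φ) := by
  ext1 j l
  rw [Matrix.map_apply]
  unfold Tm
  rw [Matrix.of_apply, Matrix.of_apply, map_sum]
  refine sum_congr rfl fun u _ => ?_
  rw [map_mul, tr_map, Polynomial.polynomial_map_coe]
  congr 1
  unfold tper
  rw [map_mul, map_pow, PowerSeries.map_X, cx_map]

end maps

/-- The coefficients of the Hasse-Witt matrix of a family have small degree. -/
lemma natDegree_coeff_pow {k : Type} [CommRing k] (F : Polynomial (Polynomial k)) (H : ℕ)
    (hH : ∀ i, (F.coeff i).natDegree ≤ H) (E i : ℕ) : ((F ^ E).coeff i).natDegree ≤ E * H := by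
  induction E generalizing i with
  | zero =>
    rw [pow_zero, Polynomial.coeff_one]
    split_ifs
    · rw [Polynomial.natDegree_one]
      exact Nat.zero_le _
    · rw [Polynomial.natDegree_zero]
      exact Nat.zero_le _
  | succ E ih =>
    rw [pow_succ, Polynomial.coeff_mul]
    refine Polynomial.natDegree_sum_le_of_forall_le _ _ fun x _ => ?_
    refine Polynomial.natDegree_mul_le.trans ?_
    rw [add_mul, one_mul]
    exact Nat.add_le_add (ih _) (hH _)

lemma natDegree_det_hu {k : Type} [CommRing k] (F : Polynomial (Polynomial k)) (H : ℕ)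
    (hH : ∀ i, (F.coeff i).natDegree ≤ H) (n E p : ℕ) :
    (hu n E p F).det.natDegree ≤ n * (E * H) := by
  classical
  rw [Matrix.det_apply]
  refine Polynomial.natDegree_sum_le_of_forall_le _ _ fun σ _ => ?_
  refine (Polynomial.natDegree_smul_le _ _).trans ((Polynomial.natDegree_prod_le _ _).trans ?_)
  calc ∑ i : Fin n, (hu n E p F (σ i) i).natDegree ≤ ∑ _i : Fin n, E * H := by
        refine sum_le_sum fun i _ => ?_
        unfold hu
        rw [Matrix.of_apply, Polynomial.coeff_X_pow_mul']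
        split_ifs
        · exact natDegree_coeff_pow F H hH E _
        · rw [Polynomial.natDegree_zero]
          exact Nat.zero_le _
    _ = n * (E * H) := by rw [sum_const, card_univ, Fintype.card_fin, smul_eq_mul]

section

variable {A : Type} [CommRing A] [IsDomain A] [CharZero A]

/-- **The soft Stepanov theorem for totally degenerate families.** -/
theorem softU (hSoft : S_Soft) (hLip : S_Lip) (hadd : S_DFadd) (hmul : S_DFmul)
    (hpoly : S_DFpoly) (hof : S_DFofODE) (hto : S_DFtoODE) (hroot : S_RootG) (hF : S_FrobG)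
    (hC : S_CxMul) {n m : ℕ} (hm1 : 1 ≤ m) {μ : A} (hμ : (m : A) ^ 2 * μ = 1)
    (F : Polynomial (Polynomial A)) (hFd : F.natDegree ≤ m * (n + 1))
    (b : Fin n → Polynomial A) (r : Fin n → ℕ)
    (D : Fin n → Finset (Fin n)) (hself : ∀ j, j ∈ D j)
    (hlt : ∀ j, ∀ l ∈ D j, l ≠ j → r j < r l)
    (hin : ∀ j, ∀ k ∈ D j, Polynomial.X ^ (r j + 1) ∣ b k - b j)
    (hout : ∀ j k, k ∉ D j → ∃ (v : ℕ) (α : A) (ρ : Polynomial A), v < r j ∧ α ≠ 0 ∧
      b j - b k = Polynomial.X ^ v * (Polynomial.C α + Polynomial.X * ρ))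
    (c : Fin n → ℕ) (κ κ' : Fin n → A) (hκ : ∀ j, κ j * κ' j = 1)
    (hch : ∀ j, ∃ R : Polynomial (Polynomial A), (F.comp (Polynomial.X + Polynomial.C (b j))).comp
      (Polynomial.C (Polynomial.X ^ r j) * Polynomial.X) =
        Polynomial.C (Polynomial.X ^ (m * c j)) *
          (Polynomial.C (Polynomial.C (κ j)) * Polynomial.X ^ (m * (D j).card) +
            Polynomial.C Polynomial.X * R))
    (ε : ℝ) (hε : 0 < ε) (H : ℕ) (hH : ∀ i, (F.coeff i).natDegree ≤ H) :
    ∃ (p₀ : ℕ) (a : A), a ≠ 0 ∧ ∀ (p : ℕ) (k : Type) [Field k] [CharP k p] (φ : A →+* k),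
      p.Prime → p₀ ≤ p → φ a ≠ 0 → ∀ E : ℕ, E * m + 1 = p →
      ∀ T : Finset k, (∀ s ∈ T, s ^ p = s ∧ s ≠ 0 ∧
        (hu n E p (F.map (Polynomial.mapRingHom φ))).det.eval s = 0) →
      (T.card : ℝ) ≤ ε * p := by
  classical
  choose R hR using hch
  have h1 := fun j => chart_norm (hκ j) hμ _ (R j) (hR j)
  choose y hy0 hy using h1
  have h2 : ∀ j, ∃ ψ : PowerSeries (LP (Fin 1) A), PowerSeries.constantCoeff ψ = 1 ∧
      ψ ^ m * (1 + (m : PowerSeries (LP (Fin 1) A)) ^ 2 *
        (y j : PowerSeries (LP (Fin 1) A))) = 1 := by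
    intro j
    refine hroot (LP (Fin 1) A) m hm1 _ ?_
    rw [← PowerSeries.coeff_zero_eq_constantCoeff_apply, Polynomial.coeff_coe]
    exact hy0 j
  choose ψ hψ1 hψ2 using h2
  have hode : ∀ j u, HasODE (cx u (ψ j)) := by
    intro j u
    refine hLip (Fin 1) A m (1 + (m : Polynomial (LP (Fin 1) A)) ^ 2 * y j) (ψ j) (by omega) ?_ _
    rw [← hψ2 j]
    congr 1
    simp only [← Polynomial.coeToPowerSeries.ringHom_apply, map_add, map_mul, map_pow, map_one,
      map_natCast]
  set Ψ : Fin n → PowerSeries (LP (Fin 1) A) :=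
    fun j => xm (x1 (-((D j).card : ℤ))) * ψ j with hΨd
  set G : Fin n → PowerSeries (LP (Fin 1) A) := fun j => cst (PowerSeries.C (κ j)) *
    xm (x1 ((m : ℤ) * (D j).card)) * (1 + (m : PowerSeries (LP (Fin 1) A)) ^ 2 *
      (y j : PowerSeries (LP (Fin 1) A))) with hGd
  have hΨ : ∀ j, Ψ j ^ m * G j = cst (PowerSeries.C (κ j)) := by
    intro j
    have h4 : (xm (x1 (-((D j).card : ℤ))) : PowerSeries (LP (Fin 1) A)) ^ m *
        xm (x1 ((m : ℤ) * (D j).card)) = 1 := by
      rw [xm_pow, ← xm_add, ← xm_zero, nsmul_x1, x1_add]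
      congr 1
      funext i
      change (m : ℤ) * -((D j).card : ℤ) + (m : ℤ) * ((D j).card : ℤ) = 0
      ring
    calc (xm (x1 (-((D j).card : ℤ))) * ψ j) ^ m * (cst (PowerSeries.C (κ j)) *
          xm (x1 ((m : ℤ) * (D j).card)) *
            (1 + (m : PowerSeries (LP (Fin 1) A)) ^ 2 * (y j : PowerSeries (LP (Fin 1) A)))) =
          cst (PowerSeries.C (κ j)) * (xm (x1 (-((D j).card : ℤ))) ^ m *
            xm (x1 ((m : ℤ) * (D j).card))) * (ψ j ^ m *
            (1 + (m : PowerSeries (LP (Fin 1) A)) ^ 2 *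
              (y j : PowerSeries (LP (Fin 1) A)))) := by
          ring
      _ = _ := by rw [h4, hψ2, mul_one, mul_one]
  set Dt := (Tm n b r Ψ).det with hDt
  have hDt0 : Dt ≠ 0 := det_Tm_ne b r D hself hlt hin hout ψ hψ1
  have hfin : DFin Dt := by
    refine dfin_det hadd hmul hpoly _ fun j l => ?_
    unfold Tm
    rw [Matrix.of_apply]
    refine dfin_sum hadd hpoly _ _ fun u _ => ?_
    refine hmul A _ _ ?_ (hpoly A _)
    unfold tper
    rw [← Polynomial.coe_X, ← Polynomial.coe_pow]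
    refine hmul A _ _ (hpoly A _) ?_
    rw [hΨd]
    simp only
    rw [cx_xm_mul]
    exact hof A _ (hode j _)
  obtain ⟨ν, hν⟩ : ∃ ν : ℕ, ν = Dt.order.toNat := ⟨_, rfl⟩
  obtain ⟨d, hd⟩ : ∃ d, d = PowerSeries.divXPowOrder Dt := ⟨_, rfl⟩
  have hfac : Dt = PowerSeries.X ^ ν * d := by
    rw [hν, hd, PowerSeries.X_pow_order_mul_divXPowOrder]
  have hd0 : PowerSeries.constantCoeff d ≠ 0 := by
    rw [hd, Ne, PowerSeries.constantCoeff_divXPowOrder_eq_zero_iff]
    exact hDt0
  have hdne : d ≠ 0 := by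
    intro h0
    rw [h0, map_zero] at hd0
    exact hd0 rfl
  have hdode : HasODE d := hto A _ (dfin_of_X_pow_mul ν d (hfac ▸ hfin))
  obtain ⟨p₀, a, ha, hS⟩ := hSoft A d hdne hdode ε hε (n * H)
  refine ⟨p₀, a * PowerSeries.constantCoeff d, mul_ne_zero ha hd0, ?_⟩
  intro p k _ _ φ hpp hp0 hφ E he T hT
  rw [map_mul] at hφ
  have hφa : φ a ≠ 0 := left_ne_zero_of_mul hφ
  have hφd : φ (PowerSeries.constantCoeff d) ≠ 0 := right_ne_zero_of_mul hφ
  have hfact : Fact p.Prime := ⟨hpp⟩
  have hp : p ≠ 0 := hpp.ne_zero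
  set Fk := F.map (Polynomial.mapRingHom φ) with hFk
  have hid := det_star p hp hF hC he Fk (Polynomial.natDegree_map_le.trans hFd)
    (fun j => (b j).map φ) r c (fun j => φ (κ j)) (fun j => PowerSeries.map (LPm φ) (Ψ j))
    (fun j => PowerSeries.map (LPm φ) (G j))
    (fun j => by rw [← map_pow, ← map_mul, hΨ j, cst_map, PowerSeries.map_C])
    (fun j => by
      have h3 : (Fk.comp (Polynomial.X + Polynomial.C ((b j).map φ))).comp
          (Polynomial.C (Polynomial.X ^ r j) * Polynomial.X) =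
          ((F.comp (Polynomial.X + Polynomial.C (b j))).comp
            (Polynomial.C (Polynomial.X ^ r j) * Polynomial.X)).map
              (Polynomial.mapRingHom φ) := by
        rw [Polynomial.map_comp, Polynomial.map_comp, Polynomial.map_add, Polynomial.map_X,
          Polynomial.map_C, Polynomial.map_mul, Polynomial.map_C, Polynomial.map_X,
          Polynomial.coe_mapRingHom, Polynomial.map_pow, Polynomial.map_X]
      rw [h3, emb_map, toL_map, hy j, map_mul, map_pow, PowerSeries.map_X])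
  rw [Tm_map] at hid
  have hDk : ((Tm n b r Ψ).map (PowerSeries.map φ)).det =
      PowerSeries.X ^ ν * PowerSeries.map φ d := by
    have h3 : ((Tm n b r Ψ).map (PowerSeries.map φ)).det = PowerSeries.map φ Dt := by
      rw [hDt, RingHom.map_det]
      rfl
    rw [h3, hfac, map_mul, map_pow, PowerSeries.map_X]
  have hFrX : Fr p hp (PowerSeries.X : PowerSeries k) = PowerSeries.X ^ p := by
    rw [Fr_apply, PowerSeries.map_X, PowerSeries.expand_X]
  rw [hDk, map_mul (Fr p hp), map_pow (Fr p hp), hFrX, ← pow_mul] at hid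
  set P := (hu n E p Fk).det with hP
  obtain ⟨β, hβ⟩ : ∃ β : k, β = (∏ j, φ (κ j)) ^ E := ⟨_, rfl⟩
  rw [← hβ] at hid
  have hβ0 : β ≠ 0 := by
    rw [hβ]
    refine pow_ne_zero _ (prod_ne_zero_iff.mpr fun j _ h0 => ?_)
    have := congrArg φ (hκ j)
    rw [map_mul, h0, zero_mul, map_one] at this
    exact zero_ne_one this
  set n₁ := (p - 1) * (∑ j, c j) + ν with hn₁
  set n₂ := (p - 1) * (∑ j, r j) + p * ν with hn₂
  set u := Fr p hp (PowerSeries.map φ d) with hu
  have hid' : PowerSeries.X ^ n₁ * (PowerSeries.C β * PowerSeries.map φ d) =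
      PowerSeries.X ^ n₂ * (u * (P : PowerSeries k)) := by
    have h3 : p * ν = ν * p := mul_comm _ _
    rw [hn₁, hn₂, h3, pow_add, pow_add]
    calc PowerSeries.X ^ ((p - 1) * ∑ j, c j) * PowerSeries.X ^ ν *
          (PowerSeries.C β * PowerSeries.map φ d) = PowerSeries.C β *
          PowerSeries.X ^ ((p - 1) * ∑ j, c j) * (PowerSeries.X ^ ν * PowerSeries.map φ d) := by
          ring
      _ = _ := by
        rw [hid, mul_comm p ν]
        ring
  have hdk0 : PowerSeries.constantCoeff (PowerSeries.map φ d) ≠ 0 := by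
    rw [← PowerSeries.coeff_zero_eq_constantCoeff_apply, PowerSeries.coeff_map,
      PowerSeries.coeff_zero_eq_constantCoeff_apply]
    exact hφd
  have hu1 : PowerSeries.constantCoeff u ≠ 0 := by
    rw [hu, Fr_apply, PowerSeries.constantCoeff_expand,
      ← PowerSeries.coeff_zero_eq_constantCoeff_apply, PowerSeries.coeff_map,
      PowerSeries.coeff_zero_eq_constantCoeff_apply, frobenius_def]
    exact pow_ne_zero _ hdk0
  have huu : u * u⁻¹ = 1 := PowerSeries.mul_inv_cancel u hu1
  have hle : n₂ ≤ n₁ := by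
    by_contra hno
    push Not at hno
    obtain ⟨w, hw⟩ := Nat.exists_eq_add_of_lt hno
    have h3 : PowerSeries.X ^ n₁ * (PowerSeries.C β * PowerSeries.map φ d) =
        PowerSeries.X ^ n₁ * (PowerSeries.X ^ (w + 1) * (u * (P : PowerSeries k))) := by
      rw [hid', hw]
      ring
    have h4 := mul_left_cancel₀ (pow_ne_zero _ PowerSeries.X_ne_zero) h3
    have h5 := congrArg (PowerSeries.constantCoeff (R := k)) h4
    rw [map_mul, map_mul, map_pow, PowerSeries.constantCoeff_X, zero_pow (by omega), zero_mul,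
      PowerSeries.constantCoeff_C] at h5
    exact mul_ne_zero hβ0 hdk0 h5
  obtain ⟨n₃, hn₃⟩ := Nat.exists_eq_add_of_le hle
  have hP1 : (P : PowerSeries k) = PowerSeries.X ^ n₃ *
      (u⁻¹ * PowerSeries.C β * PowerSeries.map φ d) := by
    have h3 : PowerSeries.X ^ n₂ * (PowerSeries.X ^ n₃ *
        (PowerSeries.C β * PowerSeries.map φ d)) =
        PowerSeries.X ^ n₂ * (u * (P : PowerSeries k)) := by
      rw [← hid', hn₃]
      ring
    have h4 := mul_left_cancel₀ (pow_ne_zero _ PowerSeries.X_ne_zero) h3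
    calc (P : PowerSeries k) = (u * u⁻¹) * P := by rw [huu, one_mul]
      _ = u⁻¹ * (u * P) := by ring
      _ = _ := by
        rw [← h4]
        ring
  obtain ⟨P', hP'⟩ : Polynomial.X ^ n₃ ∣ P := by
    rw [Polynomial.X_pow_dvd_iff]
    intro e' he'
    rw [← Polynomial.coeff_coe, hP1, PowerSeries.coeff_X_pow_mul', if_neg (by omega)]
  have hP'1 : (P' : PowerSeries k) = u⁻¹ * PowerSeries.C β * PowerSeries.map φ d := by
    have h1 : (PowerSeries.X : PowerSeries k) ^ n₃ ≠ 0 := pow_ne_zero _ PowerSeries.X_ne_zero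
    apply mul_left_cancel₀ h1
    rw [← hP1, hP', Polynomial.coe_mul, Polynomial.coe_pow, Polynomial.coe_X]
  refine hS p k φ hpp hp0 hφa P' (u⁻¹ * PowerSeries.C β) ?_ ?_ hP'1 ?_ T ?_
  · -- derivative
    have h2 := deriv_expand p hp (PowerSeries.map (frobenius k p) (PowerSeries.map φ d))
    have h3 : PowerSeries.derivative k (PowerSeries.C β) = 0 := PowerSeries.derivative_C
    have h4 : PowerSeries.derivative k u = 0 := by
      rw [hu, Fr_apply, h2]
    rw [Derivation.leibniz, h3, PowerSeries.derivative_inv', h4, mul_zero, smul_zero, smul_zero,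
      add_zero]
  · rw [map_mul, PowerSeries.constantCoeff_inv, PowerSeries.constantCoeff_C]
    exact mul_ne_zero (inv_ne_zero hu1) hβ0
  · -- degree
    have h0 : P'.natDegree ≤ P.natDegree := by
      by_cases hz : P' = 0
      · rw [hz, Polynomial.natDegree_zero]
        exact Nat.zero_le _
      · rw [hP', Polynomial.natDegree_mul (pow_ne_zero _ Polynomial.X_ne_zero) hz]
        omega
    have h3 : ∀ i, (Fk.coeff i).natDegree ≤ H := by
      intro i
      rw [hFk, Polynomial.coeff_map, Polynomial.coe_mapRingHom]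
      exact (Polynomial.natDegree_map_le).trans (hH i)
    have h4 := natDegree_det_hu Fk H h3 n E p
    have h5 : E ≤ p := by
      have : E ≤ E * m := Nat.le_mul_of_pos_right E (by omega)
      omega
    calc P'.natDegree ≤ n * (E * H) := h0.trans h4
      _ ≤ n * (p * H) := Nat.mul_le_mul_left _ (Nat.mul_le_mul_right _ h5)
      _ = _ := by ring
  · intro s hs
    obtain ⟨hs0, hs1, hs2⟩ := hT s hs
    refine ⟨hs0, ?_⟩
    rw [hP', Polynomial.eval_mul, Polynomial.eval_pow, Polynomial.eval_X] at hs2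
    exact (mul_eq_zero.mp hs2).resolve_left (pow_ne_zero _ hs1)

end

end Pool.Agent.Q267.MU
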