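import Pool.Agent.Q267.MU.Emb
import Pool.Agent.Q267.TD.Det

/-!
# The matrix of the periods and its Frobenius structure
-/

set_option autoImplicit false

open Finset

namespace Pool.Agent.Q267.MU

open Pool.Agent.Q267.ST Pool.Agent.Q267.AP
open Pool.Agent.Q267.TD (tper starT Fr Fr_apply)
open Pool.Agent.Q267.DC (hm)

/-- The matrix of the periods: the entry with the indices `j` and `l` is the coefficient of
`u ^ (-1)` in `(b_j + S ^ (r_j) u) ^ l Ψ_j`. -/
noncomputable def Tm {A : Type} [CommRing A] (n : ℕ) (b : Fin n → Polynomial A) (r : Fin n → ℕ)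
    (Ψ : Fin n → PowerSeries (LP (Fin 1) A)) : Matrix (Fin n) (Fin n) (PowerSeries A) :=
  Matrix.of fun j l => ∑ u : Fin n, tper (fun _ : Fin 1 => r j) (Ψ j) (wu n u) *
    ((tr n (b j) u l : Polynomial A) : PowerSeries A)

section

variable {k : Type} [Field k] (p : ℕ) [Fact p.Prime] [CharP k p] (hp : p ≠ 0)

lemma Fr_coe (f : Polynomial k) :
    Fr p hp (f : PowerSeries k) = ((f ^ p : Polynomial k) : PowerSeries k) := by
  have h : (Fr p hp).comp (Polynomial.coeToPowerSeries.ringHom (R := k)) =
      (Polynomial.coeToPowerSeries.ringHom (R := k)).comp (frobenius (Polynomial k) p) := by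
    apply Polynomial.ringHom_ext
    · intro a
      rw [RingHom.comp_apply, RingHom.comp_apply, Polynomial.coeToPowerSeries.ringHom_apply,
        Polynomial.coeToPowerSeries.ringHom_apply, frobenius_def, ← Polynomial.C_pow,
        Polynomial.coe_C, Polynomial.coe_C, Fr_apply, PowerSeries.map_C, frobenius_def,
        PowerSeries.expand_C]
    · rw [RingHom.comp_apply, RingHom.comp_apply, Polynomial.coeToPowerSeries.ringHom_apply,
        Polynomial.coeToPowerSeries.ringHom_apply, frobenius_def, Polynomial.coe_pow,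
        Polynomial.coe_X, Fr_apply, PowerSeries.map_X, PowerSeries.expand_X]
  exact congrArg (fun ψ => ψ f) h

lemma tr_pow (n : ℕ) (b : Polynomial k) (i l : Fin n) : tr n b i l ^ p = tr n (b ^ p) i l := by
  unfold tr
  rw [Matrix.of_apply, Matrix.of_apply, mul_pow, ← pow_mul, ← pow_mul, mul_comm _ p]
  congr 1
  exact map_natCast (frobenius (Polynomial k) p) _

/-- **The Frobenius structure of the periods.** -/
theorem star_mat (hF : S_FrobG) (hC : S_CxMul) {n m E : ℕ} (hE : E * m + 1 = p)
    (F : Polynomial (Polynomial k)) (hFd : F.natDegree ≤ m * (n + 1))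
    (b : Fin n → Polynomial k) (r c : Fin n → ℕ) (κ : Fin n → k)
    (Ψ G : Fin n → PowerSeries (LP (Fin 1) k))
    (hΨ : ∀ j, Ψ j ^ m * G j = cst (PowerSeries.C (κ j)))
    (hg : ∀ j, toL (emb ((F.comp (Polynomial.X + Polynomial.C (b j))).comp
      (Polynomial.C (Polynomial.X ^ r j) * Polynomial.X))) = PowerSeries.X ^ (m * c j) * G j)
    (j l : Fin n) :
    PowerSeries.C (κ j ^ E) * PowerSeries.X ^ ((p - 1) * c j) * Tm n b r Ψ j l =
      PowerSeries.X ^ ((p - 1) * r j) * ∑ i, Fr p hp (Tm n b r Ψ j i) *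
        ((hu n E p F i l : Polynomial k) : PowerSeries k) := by
  have hpp : p.Prime := Fact.out
  have hp1 : 1 ≤ p := Nat.pos_of_ne_zero hp
  set Fb := F.comp (Polynomial.X + Polynomial.C (b j)) with hFb
  have hFbd : Fb.natDegree ≤ m * (n + 1) := by
    refine Polynomial.natDegree_comp_le.trans (le_trans ?_ hFd)
    calc F.natDegree * (Polynomial.X + Polynomial.C (b j)).natDegree ≤ F.natDegree * 1 :=
          Nat.mul_le_mul_left _ (Polynomial.natDegree_X_add_C (b j)).le
      _ = _ := mul_one _
  have hstar : ∀ u : Fin n, PowerSeries.C (κ j ^ E) * PowerSeries.X ^ ((p - 1) * c j) *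
      tper (fun _ : Fin 1 => r j) (Ψ j) (wu n u) =
      PowerSeries.X ^ ((p - 1) * r j) * ∑ i, Fr p hp (tper (fun _ : Fin 1 => r j) (Ψ j) (wu n i)) *
        ((hu n E p Fb i u : Polynomial k) : PowerSeries k) := by
    intro u
    have h1 := starT hF hC p hp (wu n) (wu_inj n) (wu_pos n) m E (c j) hE (emb Fb)
      (fun l v hv hv' => supp_cond n m E p hE Fb hFbd l v hv hv') (fun _ => r j) 1 1 (κ j) (Ψ j)
      (G j) (hΨ j) (by rw [scal_emb]; exact hg j) u
    rw [h1]
    have h2 : ∑ _i : Fin 1, r j = r j := by simp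
    rw [h2]
    congr 1
    refine sum_congr rfl fun i _ => ?_
    rw [hm_emb n E p hp1, pow_one, map_one, one_mul, Polynomial.comp_X]
    rfl
  have hlaw := law hpp n m E hE F hFd (b j)
  have hlaw' : ∀ i, ∑ u, hu n E p Fb i u * tr n (b j) u l =
      ∑ s, tr n (b j ^ p) i s * hu n E p F s l := by
    intro i
    have h1 := congrFun (congrFun hlaw i) l
    rwa [Matrix.mul_apply, Matrix.mul_apply] at h1
  have hcoe : ∀ (f g : Fin n → Polynomial k),
      ((∑ u, f u * g u : Polynomial k) : PowerSeries k) =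
        ∑ u, (f u : PowerSeries k) * (g u : PowerSeries k) := by
    intro f g
    rw [← Polynomial.coeToPowerSeries.ringHom_apply, map_sum]
    refine sum_congr rfl fun u _ => ?_
    rw [map_mul]
    rfl
  have hFrT : ∀ s, Fr p hp (Tm n b r Ψ j s) =
      ∑ i, Fr p hp (tper (fun _ : Fin 1 => r j) (Ψ j) (wu n i)) *
        ((tr n (b j ^ p) i s : Polynomial k) : PowerSeries k) := by
    intro s
    unfold Tm
    rw [Matrix.of_apply, map_sum]
    refine sum_congr rfl fun i _ => ?_
    rw [map_mul, Fr_coe, tr_pow]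
  calc PowerSeries.C (κ j ^ E) * PowerSeries.X ^ ((p - 1) * c j) * Tm n b r Ψ j l =
      ∑ u : Fin n, (PowerSeries.C (κ j ^ E) * PowerSeries.X ^ ((p - 1) * c j) *
        tper (fun _ : Fin 1 => r j) (Ψ j) (wu n u)) *
        ((tr n (b j) u l : Polynomial k) : PowerSeries k) := by
        unfold Tm
        rw [Matrix.of_apply, mul_sum]
        exact sum_congr rfl fun u _ => by ring
    _ = PowerSeries.X ^ ((p - 1) * r j) * ∑ u : Fin n,
        ∑ i, Fr p hp (tper (fun _ : Fin 1 => r j) (Ψ j) (wu n i)) *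
          (((hu n E p Fb i u : Polynomial k) : PowerSeries k) *
            ((tr n (b j) u l : Polynomial k) : PowerSeries k)) := by
        rw [mul_sum]
        refine sum_congr rfl fun u _ => ?_
        rw [hstar u, mul_assoc, sum_mul]
        congr 1
        exact sum_congr rfl fun i _ => by ring
    _ = PowerSeries.X ^ ((p - 1) * r j) * ∑ i,
        Fr p hp (tper (fun _ : Fin 1 => r j) (Ψ j) (wu n i)) *
          ((∑ u, hu n E p Fb i u * tr n (b j) u l : Polynomial k) : PowerSeries k) := by
        rw [sum_comm]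
        congr 1
        refine sum_congr rfl fun i _ => ?_
        rw [hcoe, mul_sum]
    _ = PowerSeries.X ^ ((p - 1) * r j) * ∑ i,
        ∑ s, Fr p hp (tper (fun _ : Fin 1 => r j) (Ψ j) (wu n i)) *
          (((tr n (b j ^ p) i s : Polynomial k) : PowerSeries k) *
            ((hu n E p F s l : Polynomial k) : PowerSeries k)) := by
        congr 1
        refine sum_congr rfl fun i _ => ?_
        rw [hlaw' i, hcoe, mul_sum]
    _ = _ := by
        rw [sum_comm]
        congr 1
        refine sum_congr rfl fun s _ => ?_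
        rw [hFrT, sum_mul]
        exact sum_congr rfl fun i _ => by ring

/-- The determinant. -/
theorem det_star (hF : S_FrobG) (hC : S_CxMul) {n m E : ℕ} (hE : E * m + 1 = p)
    (F : Polynomial (Polynomial k)) (hFd : F.natDegree ≤ m * (n + 1))
    (b : Fin n → Polynomial k) (r c : Fin n → ℕ) (κ : Fin n → k)
    (Ψ G : Fin n → PowerSeries (LP (Fin 1) k))
    (hΨ : ∀ j, Ψ j ^ m * G j = cst (PowerSeries.C (κ j)))
    (hg : ∀ j, toL (emb ((F.comp (Polynomial.X + Polynomial.C (b j))).comp
      (Polynomial.C (Polynomial.X ^ r j) * Polynomial.X))) = PowerSeries.X ^ (m * c j) * G j) :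
    PowerSeries.C ((∏ j, κ j) ^ E) * PowerSeries.X ^ ((p - 1) * ∑ j, c j) * (Tm n b r Ψ).det =
      PowerSeries.X ^ ((p - 1) * ∑ j, r j) * (Fr p hp (Tm n b r Ψ).det *
        (((hu n E p F).det : Polynomial k) : PowerSeries k)) := by
  have hH : ((hu n E p F).map (Polynomial.coeToPowerSeries.ringHom (R := k))).det =
      (((hu n E p F).det : Polynomial k) : PowerSeries k) := by
    have h8 := RingHom.map_det (Polynomial.coeToPowerSeries.ringHom (R := k)) (hu n E p F)
    rw [Polynomial.coeToPowerSeries.ringHom_apply] at h8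
    exact h8.symm
  have h2 : Matrix.diagonal (fun j => PowerSeries.C (κ j ^ E) *
      (PowerSeries.X : PowerSeries k) ^ ((p - 1) * c j)) * Tm n b r Ψ =
      Matrix.diagonal (fun j => (PowerSeries.X : PowerSeries k) ^ ((p - 1) * r j)) *
        ((Tm n b r Ψ).map (Fr p hp) *
          (hu n E p F).map (Polynomial.coeToPowerSeries.ringHom (R := k))) := by
    ext1 j l
    rw [Matrix.diagonal_mul, Matrix.diagonal_mul, star_mat p hp hF hC hE F hFd b r c κ Ψ G hΨ hg,
      Matrix.mul_apply]
    rfl
  have h3 := congrArg Matrix.det h2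
  rw [Matrix.det_mul, Matrix.det_mul, Matrix.det_diagonal, Matrix.det_diagonal, Matrix.det_mul,
    prod_mul_distrib, prod_pow_eq_pow_sum, prod_pow_eq_pow_sum, ← mul_sum, ← mul_sum,
    ← map_prod, prod_pow, hH] at h3
  have h5 : ((Tm n b r Ψ).map (Fr p hp)).det = Fr p hp (Tm n b r Ψ).det := by
    rw [RingHom.map_det]
    rfl
  rwa [h5] at h3

end

end Pool.Agent.Q267.MU
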