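import Pool.Agent.Q267.MU.Dbl

/-!
# Totally degenerate members at a point or at infinity
-/

set_option autoImplicit false

open Finset

namespace Pool.Agent.Q267.MU

lemma det_hu_C_mul {R : Type} [CommRing R] (n E p : ℕ) (c : R) (g : Polynomial R) :
    (hu n E p (Polynomial.C c * g)).det = (c ^ E) ^ n * (hu n E p g).det := by
  have h1 : hu n E p (Polynomial.C c * g) = c ^ E • hu n E p g := by
    ext1 i l
    rw [Matrix.smul_apply, smul_eq_mul]
    unfold hu
    rw [Matrix.of_apply, Matrix.of_apply, mul_pow, ← Polynomial.C_pow, mul_left_comm,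
      Polynomial.coeff_C_mul]
  rw [h1, Matrix.det_smul, Fintype.card_fin]

/-- The family near infinity. -/
noncomputable def rv {R : Type} [CommRing R] (H : ℕ) (f : Polynomial (Polynomial R)) :
    Polynomial (Polynomial R) :=
  ∑ i ∈ f.support, Polynomial.C (Polynomial.reflect H (f.coeff i)) * Polynomial.X ^ i

lemma coeff_rv {R : Type} [CommRing R] (H : ℕ) (f : Polynomial (Polynomial R)) (i : ℕ) :
    (rv H f).coeff i = Polynomial.reflect H (f.coeff i) := by
  unfold rv
  rw [Polynomial.finsetSum_coeff]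
  simp only [Polynomial.coeff_C_mul, Polynomial.coeff_X_pow, mul_ite, mul_one, mul_zero]
  rw [sum_ite_eq]
  split_ifs with h
  · rfl
  · rw [Polynomial.notMem_support_iff.mp h, Polynomial.reflect_zero]

lemma natDegree_rv {R : Type} [CommRing R] (H : ℕ) (f : Polynomial (Polynomial R)) (B : ℕ)
    (hf : f.natDegree ≤ B) : (rv H f).natDegree ≤ B := by
  rw [Polynomial.natDegree_le_iff_coeff_eq_zero]
  intro i hi
  rw [coeff_rv, Polynomial.coeff_eq_zero_of_natDegree_lt (by omega), Polynomial.reflect_zero]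

section

variable {n m N M : ℕ} {A : Type} [CommRing A] [IsDomain A] [CharZero A]

/-- A totally degenerate member at the point `s₀`. -/
theorem concUs (hm1 : 1 ≤ m) (hN : 1 ≤ N) (μ : A) (hμ : (m : A) ^ 2 * μ = 1)
    (f : Polynomial (Polynomial A)) (hf : f.natDegree ≤ m * (n + 1)) (s₀ : A)
    (hcfg : Cfg n m (pull (m * (n + 1)) N M (f.map
      (Polynomial.compRingHom (Polynomial.X + Polynomial.C s₀)))))
    (ε : ℝ) (hε : 0 < ε) :
    ∃ (p₀ : ℕ) (a : A), a ≠ 0 ∧ ∀ (p : ℕ) (k : Type) [Field k] [CharP k p] (φ : A →+* k),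
      p.Prime → p₀ ≤ p → φ a ≠ 0 → φ s₀ ^ p = φ s₀ → ∀ E : ℕ, E * m + 1 = p →
      ∀ Z : Finset k, (∀ t ∈ Z, t ^ p = t ∧
        (hu n E p (f.map (Polynomial.mapRingHom φ))).det.eval t = 0) →
      (Z.card : ℝ) ≤ ε * p := by
  classical
  set f' := f.map (Polynomial.compRingHom (Polynomial.X + Polynomial.C s₀)) with hf'
  obtain ⟨p₀, a, ha, h⟩ := concU hm1 hN hμ f' (Polynomial.natDegree_map_le.trans hf) hcfg ε hε
  refine ⟨p₀, a, ha, ?_⟩
  intro p k _ _ φ hpp hp0 hφ hs E he Z hZ
  have hfact : Fact p.Prime := ⟨hpp⟩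
  have h1 := h p k φ hpp hp0 hφ E he (Z.image fun t => t - φ s₀) (by
    intro t ht
    obtain ⟨z, hz, rfl⟩ := mem_image.mp ht
    obtain ⟨hz1, hz2⟩ := hZ z hz
    refine ⟨by rw [sub_pow_char, hz1, hs], ?_⟩
    have h2 : f'.map (Polynomial.mapRingHom φ) =
        (f.map (Polynomial.mapRingHom φ)).map
          (Polynomial.compRingHom (Polynomial.X + Polynomial.C (φ s₀))) := by
      rw [hf', Polynomial.map_map, Polynomial.map_map]
      congr 1
      apply Polynomial.ringHom_ext
      · intro a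
        simp
      · simp
    rw [h2, det_hu_map, Polynomial.coe_compRingHom, Polynomial.eval_comp]
    simpa using hz2)
  rwa [card_image_of_injective _ (fun x y h => sub_left_injective h)] at h1

/-- A totally degenerate member at infinity. -/
theorem concUi (hm1 : 1 ≤ m) (hN : 1 ≤ N) (μ : A) (hμ : (m : A) ^ 2 * μ = 1)
    (f : Polynomial (Polynomial A)) (hf : f.natDegree ≤ m * (n + 1))
    (H : ℕ) (hH : ∀ i, (f.coeff i).natDegree ≤ H)
    (hcfg : Cfg n m (pull (m * (n + 1)) N M (rv H f)))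
    (ε : ℝ) (hε : 0 < ε) :
    ∃ (p₀ : ℕ) (a : A), a ≠ 0 ∧ ∀ (p : ℕ) (k : Type) [Field k] [CharP k p] (φ : A →+* k),
      p.Prime → p₀ ≤ p → φ a ≠ 0 → ∀ E : ℕ, E * m + 1 = p →
      ∀ Z : Finset k, (∀ t ∈ Z, t ^ p = t ∧
        (hu n E p (f.map (Polynomial.mapRingHom φ))).det.eval t = 0) →
      (Z.card : ℝ) ≤ ε * p := by
  classical
  obtain ⟨p₀, a, ha, h⟩ := concU hm1 hN hμ (rv H f) (natDegree_rv H f _ hf) hcfg (ε / 2)
    (by positivity)
  refine ⟨max p₀ ⌈2 / ε⌉₊, a, ha, ?_⟩
  intro p k _ _ φ hpp hp0 hφ E he Z hZ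
  have hfact : Fact p.Prime := ⟨hpp⟩
  have hp1 : p₀ ≤ p := (le_max_left _ _).trans hp0
  have hp2 : 2 / ε ≤ (p : ℝ) := (Nat.le_ceil _).trans (by exact_mod_cast (le_max_right _ _).trans hp0)
  have h1 := h p k φ hpp hp1 hφ E he ((Z.erase 0).image fun t => t⁻¹) (by
    intro t ht
    obtain ⟨z, hz, rfl⟩ := mem_image.mp ht
    obtain ⟨hz0, hz'⟩ := mem_erase.mp hz
    obtain ⟨hz1, hz2⟩ := hZ z hz'
    refine ⟨by rw [inv_pow, hz1], ?_⟩
    have h3 : (f.map (Polynomial.mapRingHom φ)).map (Polynomial.evalRingHom z) =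
        Polynomial.C (z ^ H) * ((rv H f).map (Polynomial.mapRingHom φ)).map
          (Polynomial.evalRingHom z⁻¹) := by
      ext1 i
      rw [Polynomial.coeff_C_mul, Polynomial.coeff_map, Polynomial.coeff_map,
        Polynomial.coeff_map, Polynomial.coeff_map, coeff_rv]
      simp only [Polynomial.coe_evalRingHom, Polynomial.coe_mapRingHom, Polynomial.eval_map]
      have : Invertible z := invertibleOfNonzero hz0
      have h4 := Polynomial.eval₂_reflect_mul_pow φ z H (f.coeff i) (hH i)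
      rw [invOf_eq_inv] at h4
      rw [← h4, mul_comm]
    have h5 := congrArg (fun F => (hu n E p F).det) h3
    rw [det_hu_C_mul, det_hu_map, det_hu_map (Polynomial.evalRingHom z⁻¹),
      Polynomial.coe_evalRingHom, Polynomial.coe_evalRingHom, hz2] at h5
    rcases mul_eq_zero.mp h5.symm with h6 | h6
    · exact absurd h6 (pow_ne_zero _ (pow_ne_zero _ (pow_ne_zero _ hz0)))
    · exact h6)
  rw [card_image_of_injective _ inv_injective] at h1
  have h2 : (Z.card : ℝ) ≤ (Z.erase 0).card + 1 := by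
    have := pred_card_le_card_erase (s := Z) (a := (0 : k))
    have h3 : Z.card ≤ (Z.erase 0).card + 1 := by omega
    exact_mod_cast h3
  have h3 : 2 ≤ p * ε := by
    rwa [div_le_iff₀ hε] at hp2
  linarith

end

end Pool.Agent.Q267.MU
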